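import Pool.Agent.Lib_MP_5bbd08_al.Sym

/-!
# Symbols of five elements of a three-dimensional space

Let `C` be an algebraically closed field, `K` an extension, `p` an odd prime and `l₀, …, l₄` nonzero
elements of a three-dimensional `C`-subspace of `K`.  A class of degree zero in the symbols of the
`lᵢ` in `K₂(K)/p` is given by an antisymmetric matrix `A` over `𝔽_p` with zero row sums:
`T A = ∑ᵢⱼ Aᵢⱼ {lᵢ, lⱼ}` (each pair is counted twice).

* `tau`: if `r, s, t` lie in a two-dimensional space, then `{r, s} + {s, t} + {t, r} = 0`. So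
  `{a, b} = {m, b / a}` for every `m` in the span of `a` and `b`, and two planes in a
  three-dimensional space have a common element (`meet`).
* `core_A`: if `A₀₁ = 0` and `A₃₄ ≠ 0`, then with `m` in the spans of `l₀, l₁` and of `l₂, l₃`, and
  `n` in the spans of `l₀, l₁` and of `l₂, l₄`, the class is `{m^s l₀^u l₁^v l₂ / l₄,
  n^t l₀^u' l₁^v' (l₂ / l₃)^w}` for suitable exponents.
* `core_B`: if `A₄₀ + A₄₁ = 0` and the entries and the Pfaffian are nonzero, the class is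
  `{m U, (l₀ / l₁)^i (l₂ / l₃)^j}`, `U` a product of powers of the `lᵢ`.
* `comb`: for `p = 5` every matrix has a zero entry off the diagonal or two opposite entries in
  one row.
-/

set_option autoImplicit false
open scoped TensorProduct

namespace MP5bbd

section five

variable {k : Type*} [Field k] {E Q : Type*} [AddCommGroup E] [Module k E] [AddCommGroup Q]
  [Module k Q]

/-- the class of a matrix -/
def T (B : E →ₗ[k] E →ₗ[k] Q) (A : Fin 5 → Fin 5 → k) (e : Fin 5 → E) : Q :=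
  ∑ i, ∑ j, A i j • B (e i) (e j)

/-- antisymmetric matrices with zero row sums -/
structure Skew (A : Fin 5 → Fin 5 → k) : Prop where
  anti : ∀ i j, A j i = -A i j
  diag : ∀ i, A i i = 0
  row : ∀ i, ∑ j, A i j = 0

theorem T_eq {B : E →ₗ[k] E →ₗ[k] Q} (alt : ∀ e, B e e = 0) {A : Fin 5 → Fin 5 → k} (hA : Skew A)
    (e : Fin 5 → E) : T B A e = (2 : k) • (A 0 1 • B (e 0) (e 1) + A 0 2 • B (e 0) (e 2) +
      A 0 3 • B (e 0) (e 3) + A 0 4 • B (e 0) (e 4) + A 1 2 • B (e 1) (e 2) +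
      A 1 3 • B (e 1) (e 3) + A 1 4 • B (e 1) (e 4) + A 2 3 • B (e 2) (e 3) +
      A 2 4 • B (e 2) (e 4) + A 3 4 • B (e 3) (e 4)) := by
  simp only [T, Fin.sum_univ_five, hA.diag, alt]
  rw [hA.anti 0 1, hA.anti 0 2, hA.anti 0 3, hA.anti 0 4, hA.anti 1 2, hA.anti 1 3, hA.anti 1 4,
    hA.anti 2 3, hA.anti 2 4, hA.anti 3 4, anti alt (e 1) (e 0), anti alt (e 2) (e 0),
    anti alt (e 3) (e 0), anti alt (e 4) (e 0), anti alt (e 2) (e 1), anti alt (e 3) (e 1),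
    anti alt (e 4) (e 1), anti alt (e 3) (e 2), anti alt (e 4) (e 2), anti alt (e 4) (e 3)]
  module

theorem T_perm (B : E →ₗ[k] E →ₗ[k] Q) (A : Fin 5 → Fin 5 → k) (e : Fin 5 → E)
    {g : Fin 5 → Fin 5} (hg : Function.Bijective g) :
    T B (fun i j => A (g i) (g j)) (fun i => e (g i)) = T B A e := by
  unfold T
  rw [← hg.sum_comp fun i => ∑ j, A i j • B (e i) (e j)]
  refine Finset.sum_congr rfl fun i _ => ?_
  exact hg.sum_comp fun j => A (g i) j • B (e (g i)) (e j)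

theorem Skew.perm {A : Fin 5 → Fin 5 → k} (hA : Skew A) {g : Fin 5 → Fin 5}
    (hg : Function.Bijective g) : Skew fun i j => A (g i) (g j) where
  anti _ _ := hA.anti _ _
  diag _ := hA.diag _
  row i := (hg.sum_comp fun j => A (g i) j).trans (hA.row _)

/-- the class is one symbol -/
def Good (B : E →ₗ[k] E →ₗ[k] Q) (A : Fin 5 → Fin 5 → k) (e : Fin 5 → E) : Prop :=
  ∃ f h, B f h = T B A e

theorem good_of {B : E →ₗ[k] E →ₗ[k] Q} (alt : ∀ e, B e e = 0) {A : Fin 5 → Fin 5 → k}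
    (hA : Skew A) (e : Fin 5 → E) (f h : E)
    (H : B f h = A 0 1 • B (e 0) (e 1) + A 0 2 • B (e 0) (e 2) +
      A 0 3 • B (e 0) (e 3) + A 0 4 • B (e 0) (e 4) + A 1 2 • B (e 1) (e 2) +
      A 1 3 • B (e 1) (e 3) + A 1 4 • B (e 1) (e 4) + A 2 3 • B (e 2) (e 3) +
      A 2 4 • B (e 2) (e 4) + A 3 4 • B (e 3) (e 4)) : Good B A e :=
  ⟨(2 : k) • f, h, by rw [T_eq alt hA, map_smul, LinearMap.smul_apply, H]⟩

theorem good_perm {B : E →ₗ[k] E →ₗ[k] Q} {A : Fin 5 → Fin 5 → k} {e : Fin 5 → E}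
    {g : Fin 5 → Fin 5} (hg : Function.Bijective g)
    (H : Good B (fun i j => A (g i) (g j)) (fun i => e (g i))) : Good B A e := by
  obtain ⟨f, h, H⟩ := H
  exact ⟨f, h, H.trans (T_perm B A e hg)⟩

theorem rows {A : Fin 5 → Fin 5 → k} (hA : Skew A) :
    A 0 4 = -A 0 1 - A 0 2 - A 0 3 ∧ A 1 4 = A 0 1 - A 1 2 - A 1 3 ∧
    A 2 4 = A 0 2 + A 1 2 - A 2 3 ∧ A 3 4 = A 0 3 + A 1 3 + A 2 3 := by
  have h0 := hA.row 0
  have h1 := hA.row 1
  have h2 := hA.row 2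
  have h3 := hA.row 3
  rw [Fin.sum_univ_five, hA.diag] at h0 h1 h2 h3
  rw [hA.anti 0 1] at h1
  rw [hA.anti 0 2, hA.anti 1 2] at h2
  rw [hA.anti 0 3, hA.anti 1 3, hA.anti 2 3] at h3
  refine ⟨by linear_combination h0, by linear_combination h1, by linear_combination h2,
    by linear_combination h3⟩

/-- the first case: the residue at one node is zero -/
theorem core_A {B : E →ₗ[k] E →ₗ[k] Q} (alt : ∀ e, B e e = 0) {A : Fin 5 → Fin 5 → k}
    (hA : Skew A) (e : Fin 5 → E) (m n : E) (h01 : A 0 1 = 0) (h34 : A 3 4 ≠ 0)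
    (r1 : B m n + B n (e 0) + B (e 0) m = 0) (r2 : B m (e 1) + B (e 1) (e 0) + B (e 0) m = 0)
    (r3 : B n (e 1) + B (e 1) (e 0) + B (e 0) n = 0)
    (r4 : B m (e 2) + B (e 2) (e 3) + B (e 3) m = 0)
    (r5 : B n (e 2) + B (e 2) (e 4) + B (e 4) n = 0) : Good B A e := by
  obtain ⟨q4, q14, q24, q34⟩ := rows hA
  obtain ⟨i, hi⟩ : ∃ i, i * A 3 4 = 1 := ⟨(A 3 4)⁻¹, inv_mul_cancel₀ h34⟩
  obtain ⟨s, hs⟩ : ∃ s, s = -(i * (A 0 3 + A 1 3)) := ⟨_, rfl⟩
  obtain ⟨t, ht⟩ : ∃ t, t = -(A 0 4 + A 1 4) := ⟨_, rfl⟩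
  refine good_of alt hA e (s • m + (i * A 0 3) • e 0 + (i * A 1 3) • e 1 +
    (e 2 - e 4)) (t • n + A 0 4 • e 0 + A 1 4 • e 1 - A 3 4 • (e 2 - e 3)) ?_
  have E1 : B (s • m + (i * A 0 3) • e 0 + (i * A 1 3) • e 1 +
    (e 2 - e 4)) (t • n + A 0 4 • e 0 + A 1 4 • e 1 - A 3 4 • (e 2 - e 3)) =
    (s * t) • (B m n + B n (e 0) + B (e 0) m) +
    (s * A 1 4) • (B m (e 1) + B (e 1) (e 0) + B (e 0) m) -
    (i * A 1 3 * t) • (B n (e 1) + B (e 1) (e 0) + B (e 0) n) -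
    (s * A 3 4) • (B m (e 2) + B (e 2) (e 3) + B (e 3) m) -
    t • (B n (e 2) + B (e 2) (e 4) + B (e 4) n) + 
     (A 0 1 • B (e 0) (e 1) + A 0 2 • B (e 0) (e 2) +
      A 0 3 • B (e 0) (e 3) + A 0 4 • B (e 0) (e 4) + A 1 2 • B (e 1) (e 2) +
      A 1 3 • B (e 1) (e 3) + A 1 4 • B (e 1) (e 4) + A 2 3 • B (e 2) (e 3) +
      A 2 4 • B (e 2) (e 4) + A 3 4 • B (e 3) (e 4)) := by
    simp only [map_add, map_sub, map_smul, LinearMap.add_apply, LinearMap.sub_apply,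
      LinearMap.smul_apply, alt, anti alt (e 1) (e 0), anti alt (e 2) (e 0),
      anti alt (e 4) (e 0), anti alt (e 2) (e 1), anti alt (e 4) (e 1), anti alt (e 4) (e 2),
      anti alt (e 4) (e 3), anti alt n (e 0), anti alt (e 0) m, anti alt n (e 1), anti alt (e 3) m, anti alt n (e 2)]
    rw [hs, ht, q4, q14, q24, h01]
    rw [q34] at hi ⊢
    match_scalars <;> first
      | ring1
      | linear_combination A 0 3 * hi
      | linear_combination -A 0 3 * hi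
      | linear_combination A 1 3 * hi
      | linear_combination -A 1 3 * hi
      | linear_combination (A 0 3 + A 1 3) * hi
      | linear_combination -(A 0 3 + A 1 3) * hi
  rw [E1, r1, r2, r3, r4, r5]
  module

/-- degenerate form of the first case -/
theorem core_A0 {B : E →ₗ[k] E →ₗ[k] Q} (alt : ∀ e, B e e = 0) {A : Fin 5 → Fin 5 → k}
    (hA : Skew A) (e : Fin 5 → E) (h01 : A 0 1 = 0) (h23 : A 2 3 = 0) (h24 : A 2 4 = 0)
    (h34 : A 3 4 = 0) : Good B A e := by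
  obtain ⟨q4, q14, q24, q34⟩ := rows hA
  have h12 : A 1 2 = -A 0 2 := by linear_combination q24.symm.trans h24 + h23
  have h13 : A 1 3 = -A 0 3 := by linear_combination q34.symm.trans h34 - h23
  have h14 : A 1 4 = -A 0 4 := by linear_combination q14 + q4 - h12 - h13
  refine good_of alt hA e (e 0 - e 1) (A 0 2 • e 2 + A 0 3 • e 3 + A 0 4 • e 4) ?_
  rw [h12, h13, h14, h01, h23, h24, h34]
  simp only [map_add, map_sub, map_smul, LinearMap.sub_apply]
  module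

/-- three vectors -/
theorem tri (B : E →ₗ[k] E →ₗ[k] Q) (alt : ∀ e, B e e = 0) (u v w : E) (a b c : k) :
    ∃ f h, B f h = a • B v w + b • B w u + c • B u v := by
  by_cases ha : a = 0
  · refine ⟨u, c • v - b • w, ?_⟩
    rw [ha, anti alt w u, map_sub, map_smul, map_smul]
    module
  · refine ⟨a⁻¹ • (a • v - b • u), a • w - c • u, ?_⟩
    rw [map_smul, LinearMap.smul_apply, inv_smul_eq_iff₀ ha]
    simp only [map_sub, map_smul, LinearMap.sub_apply, LinearMap.smul_apply, alt, anti alt w u,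
      anti alt v u]
    module

/-- two of the five elements are equal -/
theorem core_P {B : E →ₗ[k] E →ₗ[k] Q} (alt : ∀ e, B e e = 0) {A : Fin 5 → Fin 5 → k}
    (hA : Skew A) (e : Fin 5 → E) (h : e 0 = e 1) : Good B A e := by
  obtain ⟨q4, q14, q24, q34⟩ := rows hA
  obtain ⟨f, g, hfg⟩ := tri B alt (e 1 - e 4) (e 2 - e 4) (e 3 - e 4) (A 2 3) (-(A 0 3 + A 1 3))
    (A 0 2 + A 1 2)
  refine good_of alt hA e f g ?_
  rw [hfg, h, q4, q14, q24, q34]
  simp only [map_sub, LinearMap.sub_apply, alt, anti alt (e 4) (e 1),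
    anti alt (e 4) (e 2), anti alt (e 4) (e 3), anti alt (e 3) (e 1)]
  module

/-- zero Pfaffian -/
theorem core_R {B : E →ₗ[k] E →ₗ[k] Q} (alt : ∀ e, B e e = 0) {A : Fin 5 → Fin 5 → k}
    (hA : Skew A) (e : Fin 5 → E) (h01 : A 0 1 ≠ 0)
    (hP : A 0 1 * A 2 3 - A 0 2 * A 1 3 + A 0 3 * A 1 2 = 0) : Good B A e := by
  obtain ⟨q4, q14, q24, q34⟩ := rows hA
  refine good_of alt hA e ((A 0 1)⁻¹ • (A 0 1 • (e 0 - e 4) - A 1 2 • (e 2 - e 4) -
    A 1 3 • (e 3 - e 4))) (A 0 1 • (e 1 - e 4) + A 0 2 • (e 2 - e 4) + A 0 3 • (e 3 - e 4)) ?_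
  rw [map_smul, LinearMap.smul_apply, inv_smul_eq_iff₀ h01, q4, q14, q24, q34]
  simp only [map_add, map_sub, map_smul, LinearMap.sub_apply, LinearMap.smul_apply, alt,
    anti alt (e 4) (e 1), anti alt (e 4) (e 2), anti alt (e 4) (e 3), anti alt (e 2) (e 1),
    anti alt (e 3) (e 1), anti alt (e 3) (e 2)]
  match_scalars <;> first
    | ring1
    | linear_combination hP
    | linear_combination -hP

/-- the second case: two residues on one line are opposite -/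
theorem core_B {B : E →ₗ[k] E →ₗ[k] Q} (alt : ∀ e, B e e = 0) {A : Fin 5 → Fin 5 → k}
    (hA : Skew A) (e : Fin 5 → E) (m : E) (h4 : A 4 0 + A 4 1 = 0) (h04 : A 0 4 ≠ 0)
    (h24 : A 2 4 ≠ 0) (hP : A 0 1 * A 2 3 - A 0 2 * A 1 3 + A 0 3 * A 1 2 ≠ 0)
    (r1 : B m (e 0) + B (e 0) (e 1) + B (e 1) m = 0)
    (r2 : B m (e 2) + B (e 2) (e 3) + B (e 3) m = 0) : Good B A e := by
  obtain ⟨q4, q14, q24, q34⟩ := rows hA
  rw [hA.anti 0 4, hA.anti 1 4] at h4
  have h12 : A 1 2 = -A 0 2 - A 0 3 - A 1 3 := by linear_combination h4 + q4 + q14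
  have h14 : A 1 4 = -A 0 4 := by linear_combination -h4
  have h34 : A 3 4 = -A 2 4 := by linear_combination q34 + q24 + h12
  have h24' : A 2 4 = -A 0 3 - A 1 3 - A 2 3 := by linear_combination q24 + h12
  obtain ⟨P, hPd⟩ : ∃ P, P = A 0 1 * A 2 3 - A 0 2 * A 1 3 + A 0 3 * A 1 2 := ⟨_, rfl⟩
  rw [← hPd] at hP
  refine good_of alt hA e (m - (A 0 3 * A 0 4 / P) • e 0 - (A 1 3 * A 0 4 / P) • e 1 -
    ((A 0 3 + A 0 2) * A 2 4 / P) • e 2 - (A 0 4 * A 2 4 / P) • e 4)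
    ((P / A 2 4) • (e 0 - e 1) + (P / A 0 4) • (e 2 - e 3)) ?_
  have E1 : B (m - (A 0 3 * A 0 4 / P) • e 0 - (A 1 3 * A 0 4 / P) • e 1 -
    ((A 0 3 + A 0 2) * A 2 4 / P) • e 2 - (A 0 4 * A 2 4 / P) • e 4)
    ((P / A 2 4) • (e 0 - e 1) + (P / A 0 4) • (e 2 - e 3)) =
      (P / A 2 4) • (B m (e 0) + B (e 0) (e 1) + B (e 1) m) +
      (P / A 0 4) • (B m (e 2) + B (e 2) (e 3) + B (e 3) m) +
      (A 0 1 • B (e 0) (e 1) + A 0 2 • B (e 0) (e 2) +
      A 0 3 • B (e 0) (e 3) + A 0 4 • B (e 0) (e 4) + A 1 2 • B (e 1) (e 2) +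
      A 1 3 • B (e 1) (e 3) + A 1 4 • B (e 1) (e 4) + A 2 3 • B (e 2) (e 3) +
      A 2 4 • B (e 2) (e 4) + A 3 4 • B (e 3) (e 4)) := by
    simp only [map_add, map_sub, map_smul, LinearMap.sub_apply,
      LinearMap.smul_apply, alt, anti alt (e 1) (e 0), anti alt (e 2) (e 0),
      anti alt (e 4) (e 0), anti alt (e 2) (e 1), anti alt (e 4) (e 1), anti alt (e 4) (e 2),
      anti alt (e 4) (e 3), anti alt (e 1) m, anti alt (e 3) m]
    rw [h14, h34]
    match_scalars <;> field_simp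
    · rw [hPd, q4, h24', h12]
      ring
    · ring
    · rw [h12]
      ring
    · rw [hPd, q4, h24', h12]
      ring
  rw [E1, r1, r2]
  module

theorem inj5 {i j l m n : Fin 5} (h : (i ≠ j ∧ i ≠ l ∧ i ≠ m ∧ i ≠ n) ∧ (j ≠ l ∧ j ≠ m ∧ j ≠ n) ∧
    (l ≠ m ∧ l ≠ n) ∧ m ≠ n) : Function.Bijective ![i, j, l, m, n] := by
  obtain ⟨⟨h1, h2, h3, h4⟩, ⟨h5, h6, h7⟩, ⟨h8, h9⟩, h10⟩ := h
  refine Finite.injective_iff_bijective.mp ?_
  intro a b hab
  fin_cases a <;> fin_cases b <;> simp_all [eq_comm]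

theorem ex5 : ∀ i j : Fin 5, i ≠ j → ∃ l m n : Fin 5, (i ≠ j ∧ i ≠ l ∧ i ≠ m ∧ i ≠ n) ∧
    (j ≠ l ∧ j ≠ m ∧ j ≠ n) ∧ (l ≠ m ∧ l ≠ n) ∧ m ≠ n := by decide

theorem ex5' : ∀ i j l : Fin 5, i ≠ j → i ≠ l → j ≠ l → ∃ m n : Fin 5,
    (i ≠ j ∧ i ≠ l ∧ i ≠ m ∧ i ≠ n) ∧ (j ≠ l ∧ j ≠ m ∧ j ≠ n) ∧ (l ≠ m ∧ l ≠ n) ∧ m ≠ n := by
  decide

end five

section space

variable {k : Type*} [Field k] {E Q : Type*} [AddCommGroup E] [Module k E] [AddCommGroup Q]
  [Module k Q] {K : Type*} [Field K] {C : Type*} [Field C] [Algebra C K]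
  {B : E →ₗ[k] E →ₗ[k] Q} {c : K → E}

theorem c_smul (V : Env B c) (Tr : ∀ a : C, c (algebraMap C K a) = 0) {a : C} (ha : a ≠ 0) {r : K}
    (hr : r ≠ 0) : c (a • r) = c r := by
  rw [Algebra.smul_def, V.mul _ _ ((map_ne_zero (algebraMap C K)).mpr ha) hr, Tr, zero_add]

theorem c_prop (V : Env B c) (Tr : ∀ a : C, c (algebraMap C K a) = 0) {a b : C} {r s : K}
    (hr : r ≠ 0) (hs : s ≠ 0) (h : a • r + b • s = 0) (hab : ¬(a = 0 ∧ b = 0)) : c r = c s := by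
  have ha : a ≠ 0 := by
    rintro rfl
    rw [zero_smul, zero_add, smul_eq_zero] at h
    exact hab ⟨rfl, h.resolve_right hs⟩
  have hb : b ≠ 0 := by
    rintro rfl
    rw [zero_smul, add_zero, smul_eq_zero] at h
    exact ha (h.resolve_right hr)
  have h1 : a • r = -(b • s) := eq_neg_of_add_eq_zero_left h
  rw [← c_smul V Tr ha hr, h1, V.neg, c_smul V Tr hb hs]

/-- three elements of a two-dimensional space -/
theorem tau (V : Env B c) (Tr : ∀ a : C, c (algebraMap C K a) = 0) {r s t : K} (hr : r ≠ 0)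
    (hs : s ≠ 0) (ht : t ≠ 0) {α β γ : C} (h : α • r + β • s + γ • t = 0)
    (hne : ¬(α = 0 ∧ β = 0 ∧ γ = 0)) :
    B (c r) (c s) + B (c s) (c t) + B (c t) (c r) = 0 := by
  by_cases h1 : α = 0
  · have e := c_prop V Tr hs ht (a := β) (b := γ) (by rw [← h, h1, zero_smul, zero_add])
      (fun hh => hne ⟨h1, hh.1, hh.2⟩)
    rw [e, V.alt, anti V.alt (c t) (c r)]
    abel
  by_cases h2 : β = 0
  · have e := c_prop V Tr hr ht (a := α) (b := γ) (by rw [← h, h2, zero_smul, add_zero])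
      (fun hh => hne ⟨hh.1, h2, hh.2⟩)
    rw [e, V.alt, anti V.alt (c t) (c s)]
    abel
  by_cases h3 : γ = 0
  · have e := c_prop V Tr hr hs (a := α) (b := β) (by rw [← h, h3, zero_smul, add_zero])
      (fun hh => hne ⟨hh.1, hh.2, h3⟩)
    rw [e, V.alt, anti V.alt (c t) (c s)]
    abel
  · have h4 := V.three (smul_ne_zero h1 hr) (smul_ne_zero h2 hs)
      (neg_ne_zero.mpr (smul_ne_zero h3 ht)) (eq_neg_of_add_eq_zero_left h)
    rw [V.neg, c_smul V Tr h1 hr, c_smul V Tr h2 hs, c_smul V Tr h3 ht] at h4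
    rw [anti V.alt (c t) (c r), ← h4]
    abel

/-- any four of the elements are linearly dependent -/
def Dep (C : Type*) [Field C] [Algebra C K] (l : Fin 5 → K) : Prop :=
  ∀ i j m n, ∃ α β γ δ : C, ¬(α = 0 ∧ β = 0 ∧ γ = 0 ∧ δ = 0) ∧
    α • l i + β • l j + γ • l m + δ • l n = 0

/-- no two of the elements are proportional -/
def NP (C : Type*) [Field C] [Algebra C K] (l : Fin 5 → K) : Prop :=
  ∀ i j, i ≠ j → ∀ α β : C, α • l i + β • l j = 0 → α = 0 ∧ β = 0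

theorem meet {l : Fin 5 → K} (hD : Dep C l) (hN : NP C l) {i j m n : Fin 5} (hij : i ≠ j)
    (hmn : m ≠ n) : ∃ z : K, z ≠ 0 ∧ (∃ α β : C, z = α • l i + β • l j) ∧
      ∃ α β : C, z = α • l m + β • l n := by
  obtain ⟨α, β, γ, δ, hne, h⟩ := hD i j m n
  refine ⟨α • l i + β • l j, ?_, ⟨α, β, rfl⟩, ⟨-γ, -δ, ?_⟩⟩
  · intro h0
    obtain ⟨e1, e2⟩ := hN i j hij _ _ h0
    rw [h0, zero_add] at h
    obtain ⟨e3, e4⟩ := hN m n hmn _ _ h
    exact hne ⟨e1, e2, e3, e4⟩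
  · rw [add_assoc] at h
    rw [eq_neg_of_add_eq_zero_left h]
    module

theorem tau1 (V : Env B c) (Tr : ∀ a : C, c (algebraMap C K a) = 0) {z r s : K} (hz : z ≠ 0)
    (hr : r ≠ 0) (hs : s ≠ 0) (h : ∃ α β : C, z = α • r + β • s) :
    B (c z) (c r) + B (c r) (c s) + B (c s) (c z) = 0 := by
  obtain ⟨α, β, h⟩ := h
  exact tau V Tr hz hr hs (α := 1) (β := -α) (γ := -β) (by rw [h]; module)
    (fun hh => one_ne_zero hh.1)

theorem tau2 (V : Env B c) (Tr : ∀ a : C, c (algebraMap C K a) = 0) {z w r s : K} (hz : z ≠ 0)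
    (hw : w ≠ 0) (hr : r ≠ 0) (h : ∃ α β : C, z = α • r + β • s)
    (h' : ∃ α β : C, w = α • r + β • s) :
    B (c z) (c w) + B (c w) (c r) + B (c r) (c z) = 0 := by
  obtain ⟨α, β, h⟩ := h
  obtain ⟨γ, δ, h'⟩ := h'
  by_cases hne : δ = 0 ∧ β = 0
  · exact tau V Tr hz hw hr (α := 1) (β := 0) (γ := -α) (by rw [h, hne.2]; module)
      (fun hh => one_ne_zero hh.1)
  · refine tau V Tr hz hw hr (α := δ) (β := -β) (γ := -(α * δ - β * γ)) (by rw [h, h']; module) ?_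
    intro hh
    exact hne ⟨hh.1, neg_eq_zero.mp hh.2.1⟩

theorem good_A (V : Env B c) (Tr : ∀ a : C, c (algebraMap C K a) = 0) {l : Fin 5 → K}
    (hl : ∀ i, l i ≠ 0) (hD : Dep C l) (hN : NP C l) {A : Fin 5 → Fin 5 → k} (hA : Skew A)
    (h01 : A 0 1 = 0) (h34 : A 3 4 ≠ 0) : Good B A fun i => c (l i) := by
  obtain ⟨z, hz, hz1, hz2⟩ := meet hD hN (i := 0) (j := 1) (m := 2) (n := 3) (by decide) (by decide)
  obtain ⟨w, hw, hw1, hw2⟩ := meet hD hN (i := 0) (j := 1) (m := 2) (n := 4) (by decide) (by decide)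
  have sw : ∀ {z : K}, (∃ α β : C, z = α • l 0 + β • l 1) → ∃ α β : C, z = α • l 1 + β • l 0 := by
    rintro z ⟨α, β, h⟩
    exact ⟨β, α, by rw [h, add_comm]⟩
  exact core_A V.alt hA _ (c z) (c w) h01 h34 (tau2 V Tr hz hw (hl 0) hz1 hw1)
    (tau1 V Tr hz (hl 1) (hl 0) (sw hz1)) (tau1 V Tr hw (hl 1) (hl 0) (sw hw1))
    (tau1 V Tr hz (hl 2) (hl 3) hz2) (tau1 V Tr hw (hl 2) (hl 4) hw2)

theorem good_B (V : Env B c) (Tr : ∀ a : C, c (algebraMap C K a) = 0) {l : Fin 5 → K}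
    (hl : ∀ i, l i ≠ 0) (hD : Dep C l) (hN : NP C l) {A : Fin 5 → Fin 5 → k} (hA : Skew A)
    (h4 : A 4 0 + A 4 1 = 0) (hn : ∀ i j, i ≠ j → A i j ≠ 0) : Good B A fun i => c (l i) := by
  by_cases hP : A 0 1 * A 2 3 - A 0 2 * A 1 3 + A 0 3 * A 1 2 = 0
  · exact core_R V.alt hA _ (hn 0 1 (by decide)) hP
  obtain ⟨z, hz, hz1, hz2⟩ := meet hD hN (i := 0) (j := 1) (m := 2) (n := 3) (by decide) (by decide)
  exact core_B V.alt hA _ (c z) h4 (hn 0 4 (by decide)) (hn 2 4 (by decide)) hP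
    (tau1 V Tr hz (hl 0) (hl 1) hz1) (tau1 V Tr hz (hl 2) (hl 3) hz2)

theorem Dep.perm {l : Fin 5 → K} (hD : Dep C l) (g : Fin 5 → Fin 5) : Dep C fun i => l (g i) :=
  fun i j m n => hD (g i) (g j) (g m) (g n)

theorem NP.perm {l : Fin 5 → K} (hN : NP C l) {g : Fin 5 → Fin 5} (hg : Function.Bijective g) :
    NP C fun i => l (g i) :=
  fun i j hij α β h => hN (g i) (g j) (fun e => hij (hg.1 e)) α β h

/-- the classes with a vanishing residue, or with two opposite residues on one line -/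
theorem good_main (V : Env B c) (Tr : ∀ a : C, c (algebraMap C K a) = 0) {l : Fin 5 → K}
    (hl : ∀ i, l i ≠ 0) (hD : Dep C l) {A : Fin 5 → Fin 5 → k} (hA : Skew A)
    (h : (∃ i j, i ≠ j ∧ A i j = 0) ∨ ∃ i j m, i ≠ j ∧ i ≠ m ∧ j ≠ m ∧ A i j + A i m = 0) :
    Good B A fun i => c (l i) := by
  by_cases hN : NP C l
  swap
  · unfold NP at hN
    push Not at hN
    obtain ⟨i, j, hij, α, β, h1, h2⟩ := hN
    obtain ⟨m, n, r, h5⟩ := ex5 i j hij
    have hb := inj5 h5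
    refine good_perm hb (core_P V.alt (hA.perm hb) _ ?_)
    exact c_prop V Tr (hl i) (hl j) h1 (fun hh => h2 hh.1 hh.2)
  by_cases hn : ∃ i j, i ≠ j ∧ A i j = 0
  · obtain ⟨i, j, hij, h0⟩ := hn
    obtain ⟨m, n, r, h5⟩ := ex5 i j hij
    obtain ⟨⟨a1, a2, a3, a4⟩, ⟨a5, a6, a7⟩, ⟨a8, a9⟩, a10⟩ := id h5
    by_cases e1 : A n r = 0
    swap
    · have hb := inj5 h5
      exact good_perm hb (good_A V Tr (fun _ => hl _) (hD.perm _) (hN.perm hb) (hA.perm hb) h0 e1)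
    by_cases e2 : A m r = 0
    swap
    · have hb := inj5 (i := i) (j := j) (l := n) (m := m) (n := r)
        ⟨⟨a1, a3, a2, a4⟩, ⟨a6, a5, a7⟩, ⟨a8.symm, a10⟩, a9⟩
      exact good_perm hb (good_A V Tr (fun _ => hl _) (hD.perm _) (hN.perm hb) (hA.perm hb) h0 e2)
    by_cases e3 : A m n = 0
    swap
    · have hb := inj5 (i := i) (j := j) (l := r) (m := m) (n := n)
        ⟨⟨a1, a4, a2, a3⟩, ⟨a7, a5, a6⟩, ⟨a9.symm, a10.symm⟩, a8⟩
      exact good_perm hb (good_A V Tr (fun _ => hl _) (hD.perm _) (hN.perm hb) (hA.perm hb) h0 e3)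
    have hb := inj5 h5
    exact good_perm hb (core_A0 V.alt (hA.perm hb) _ h0 e3 e2 e1)
  · push Not at hn
    rcases h with ⟨i, j, hij, h0⟩ | ⟨i, j, m, h1, h2, h3, h4⟩
    · exact absurd h0 (hn i j hij)
    obtain ⟨n, r, h5⟩ := ex5' i j m h1 h2 h3
    obtain ⟨⟨a1, a2, a3, a4⟩, ⟨a5, a6, a7⟩, ⟨a8, a9⟩, a10⟩ := id h5
    have hb := inj5 (i := j) (j := m) (l := n) (m := r) (n := i)
      ⟨⟨a5, a6, a7, a1.symm⟩, ⟨a8, a9, a2.symm⟩, ⟨a10, a3.symm⟩, a4.symm⟩
    exact good_perm hb (good_B V Tr (fun _ => hl _) (hD.perm _) (hN.perm hb) (hA.perm hb) h4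
      (fun x y hxy => hn _ _ (fun e => hxy (hb.1 e))))

end space

section count

set_option synthInstance.maxSize 100000 in
set_option maxRecDepth 100000 in
theorem comb5 : ∀ a : ZMod 5, a ≠ 0 → ∀ b : ZMod 5, b ≠ 0 → a + b ≠ 0 → ∀ c : ZMod 5, c ≠ 0 →
    a + c ≠ 0 → b + c ≠ 0 → -a - b - c ≠ 0 → ∀ d : ZMod 5, d ≠ 0 → -a + d ≠ 0 → ∀ e : ZMod 5,
    e ≠ 0 → -a + e ≠ 0 → d + e ≠ 0 → a - d - e ≠ 0 → ∀ f : ZMod 5, f ≠ 0 → -b + -d ≠ 0 →
    -b + f ≠ 0 → -d + f ≠ 0 → b + d - f ≠ 0 → -c + -e ≠ 0 → -c + -f ≠ 0 → -e + -f ≠ 0 →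
    c + e + f ≠ 0 → -(-a - b - c) + -(a - d - e) ≠ 0 → -(-a - b - c) + -(b + d - f) ≠ 0 →
    -(a - d - e) + -(b + d - f) ≠ 0 → False := by
  decide

/-- for `p = 5` one of the conditions always holds -/
theorem comb [Fact (Nat.Prime 5)] {A : Fin 5 → Fin 5 → ZMod 5} (hA : Skew A) :
    (∃ i j, i ≠ j ∧ A i j = 0) ∨ ∃ i j m, i ≠ j ∧ i ≠ m ∧ j ≠ m ∧ A i j + A i m = 0 := by
  by_contra hcon
  push Not at hcon
  obtain ⟨hn, hm⟩ := hcon
  obtain ⟨q4, q14, q24, q34⟩ := rows hA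
  have g4 := hn 0 4 (by decide)
  have g14 := hn 1 4 (by decide)
  have g24 := hn 2 4 (by decide)
  have g34 := hn 3 4 (by decide)
  have k1 := hm 1 0 2 (by decide) (by decide) (by decide)
  have k2 := hm 1 0 3 (by decide) (by decide) (by decide)
  have k3 := hm 2 0 1 (by decide) (by decide) (by decide)
  have k4 := hm 2 0 3 (by decide) (by decide) (by decide)
  have k5 := hm 2 1 3 (by decide) (by decide) (by decide)
  have k6 := hm 3 0 1 (by decide) (by decide) (by decide)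
  have k7 := hm 3 0 2 (by decide) (by decide) (by decide)
  have k8 := hm 3 1 2 (by decide) (by decide) (by decide)
  have k9 := hm 4 0 1 (by decide) (by decide) (by decide)
  have k10 := hm 4 0 2 (by decide) (by decide) (by decide)
  have k11 := hm 4 1 2 (by decide) (by decide) (by decide)
  rw [hA.anti 0 1] at k1 k2
  rw [hA.anti 0 2] at k3 k4
  rw [hA.anti 1 2] at k3 k5
  rw [hA.anti 0 3] at k6 k7
  rw [hA.anti 1 3] at k6 k8
  rw [hA.anti 2 3] at k7 k8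
  rw [hA.anti 0 4] at k9 k10
  rw [hA.anti 1 4] at k9 k11
  rw [hA.anti 2 4] at k10 k11
  rw [q4] at g4 k9 k10
  rw [q14] at g14 k9 k11
  rw [q24] at g24 k10 k11
  rw [q34] at g34
  exact comb5 (A 0 1) (hn _ _ (by decide)) (A 0 2) (hn _ _ (by decide))
    (hm 0 1 2 (by decide) (by decide) (by decide)) (A 0 3) (hn _ _ (by decide))
    (hm 0 1 3 (by decide) (by decide) (by decide)) (hm 0 2 3 (by decide) (by decide) (by decide))
    g4 (A 1 2) (hn _ _ (by decide)) k1 (A 1 3) (hn _ _ (by decide)) k2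
    (hm 1 2 3 (by decide) (by decide) (by decide)) g14 (A 2 3) (hn _ _ (by decide)) k3 k4 k5 g24
    k6 k7 k8 g34 k9 k10 k11

end count

section conc5

variable {K : Type} [Field K] {C : Type} [Field C] [IsAlgClosed C] [Algebra C K] {p : ℕ}

theorem cl_const (hp : 0 < p) (a : C) : cl K p (algebraMap C K a) = 0 := by
  by_cases ha : a = 0
  · rw [ha, map_zero]
    exact dif_pos rfl
  · obtain ⟨b, hb⟩ := IsAlgClosed.exists_pow_nat_eq a hp
    have hb0 : b ≠ 0 := by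
      rintro rfl
      rw [zero_pow hp.ne'] at hb
      exact ha hb.symm
    have h := cl_pow (p := p) (Units.mk0 (algebraMap C K b) ((map_ne_zero _).mpr hb0))
    rw [Units.val_pow_eq_pow_val, Units.val_mk0, ← map_pow, hb] at h
    exact h

/-- the group generated by the constants, the ratios of the five elements and the `p`-th powers -/
def rat (C : Type) [Field C] [Algebra C K] (p : ℕ) (l : Fin 5 → Kˣ) : Subgroup Kˣ :=
  Subgroup.closure {z : Kˣ | (∃ a : C, (z : K) = algebraMap C K a) ∨ (∃ i j, z = l i / l j) ∨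
    ∃ w : Kˣ, z = w ^ p}

theorem cl_div {a b : K} (ha : a ≠ 0) (hb : b ≠ 0) : cl K p (a / b) = cl K p a - cl K p b := by
  rw [div_eq_mul_inv, cl_mul ha (inv_ne_zero hb), cl_inv hb, sub_eq_add_neg]

theorem rat_mem [Fact p.Prime] {l : Fin 5 → Kˣ} {z : Kˣ} (hz : z ∈ rat C p l) :
    ∃ u : Fin 5 → ZMod p, ∑ i, u i = 0 ∧ cl K p (z : K) = ∑ i, u i • cl K p (l i : K) := by
  induction hz using Subgroup.closure_induction with
  | mem z hz =>
    rcases hz with ⟨a, ha⟩ | ⟨i, j, rfl⟩ | ⟨w, rfl⟩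
    · refine ⟨0, by simp, ?_⟩
      rw [ha, cl_const (Fact.out : p.Prime).pos]
      simp
    · refine ⟨Pi.single i 1 - Pi.single j 1, by simp, ?_⟩
      rw [Units.val_div_eq_div_val, cl_div (l i).ne_zero (l j).ne_zero]
      simp [sub_smul, Finset.sum_sub_distrib, Pi.single_apply, ite_smul]
    · exact ⟨0, by simp, by rw [cl_pow]; simp⟩
  | one => exact ⟨0, by simp, by rw [Units.val_one, cl_one]; simp⟩
  | mul z w _ _ hz hw =>
    obtain ⟨u, hu, he⟩ := hz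
    obtain ⟨v, hv, hf⟩ := hw
    refine ⟨u + v, by simp [Finset.sum_add_distrib, hu, hv], ?_⟩
    rw [Units.val_mul, cl_mul z.ne_zero w.ne_zero, he, hf]
    simp [add_smul, Finset.sum_add_distrib]
  | inv z _ hz =>
    obtain ⟨u, hu, he⟩ := hz
    refine ⟨-u, by simp [hu], ?_⟩
    rw [Units.val_inv_eq_inv_val, cl_inv z.ne_zero, he]
    simp

theorem symb {k : Type*} [Field k] {E Q : Type*} [AddCommGroup E] [Module k E] [AddCommGroup Q]
    [Module k Q] (B : E →ₗ[k] E →ₗ[k] Q) (alt : ∀ e, B e e = 0) (k2 : (2 : k) ≠ 0)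
    (e : Fin 5 → E) (u v : Fin 5 → k) (hu : ∑ i, u i = 0) (hv : ∑ i, v i = 0) :
    ∃ A, Skew A ∧ B (∑ i, u i • e i) (∑ i, v i • e i) = T B A e := by
  refine ⟨fun i j => 2⁻¹ * (u i * v j - u j * v i), ⟨fun i j => by ring, fun i => by ring,
    fun i => ?_⟩, ?_⟩
  · rw [← Finset.mul_sum, Finset.sum_sub_distrib, ← Finset.mul_sum, ← Finset.sum_mul, hu, hv]
    ring
  · obtain ⟨S, hS⟩ : ∃ S, S = ∑ i, ∑ j, (u i * v j) • B (e i) (e j) := ⟨_, rfl⟩
    have h1 : B (∑ i, u i • e i) (∑ i, v i • e i) = S := by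
      rw [hS]
      simp only [map_sum, map_smul, LinearMap.sum_apply, LinearMap.smul_apply, Finset.smul_sum,
        smul_smul]
      rw [Finset.sum_comm]
      refine Finset.sum_congr rfl fun i _ => Finset.sum_congr rfl fun j _ => ?_
      rw [mul_comm]
    have h2 : ∑ i, ∑ j, (u j * v i) • B (e i) (e j) = -S := by
      rw [hS, Finset.sum_comm, ← Finset.sum_neg_distrib]
      refine Finset.sum_congr rfl fun i _ => ?_
      rw [← Finset.sum_neg_distrib]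
      refine Finset.sum_congr rfl fun j _ => ?_
      rw [anti alt (e j) (e i), smul_neg]
    have h3 : T B (fun i j => 2⁻¹ * (u i * v j - u j * v i)) e = (2 : k)⁻¹ • (S - -S) := by
      rw [← h2, hS]
      unfold T
      rw [← Finset.sum_sub_distrib, Finset.smul_sum]
      refine Finset.sum_congr rfl fun i _ => ?_
      rw [← Finset.sum_sub_distrib, Finset.smul_sum]
      refine Finset.sum_congr rfl fun j _ => ?_
      module
    rw [h1, h3, eq_inv_smul_iff₀ k2]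
    module

theorem T_add {k : Type*} [Field k] {E Q : Type*} [AddCommGroup E] [Module k E] [AddCommGroup Q]
    [Module k Q] (B : E →ₗ[k] E →ₗ[k] Q) (A A' : Fin 5 → Fin 5 → k) (e : Fin 5 → E) :
    T B (fun i j => A i j + A' i j) e = T B A e + T B A' e := by
  unfold T
  simp only [add_smul, Finset.sum_add_distrib]

theorem T_neg {k : Type*} [Field k] {E Q : Type*} [AddCommGroup E] [Module k E] [AddCommGroup Q]
    [Module k Q] (B : E →ₗ[k] E →ₗ[k] Q) (A : Fin 5 → Fin 5 → k) (e : Fin 5 → E) :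
    T B (fun i j => -A i j) e = -T B A e := by
  unfold T
  simp only [neg_smul, Finset.sum_neg_distrib]

theorem two_ne [Fact p.Prime] (hodd : Odd p) : (2 : ZMod p) ≠ 0 := by
  intro h
  have h1 : ((2 : ℕ) : ZMod p) = 0 := by exact_mod_cast h
  rw [ZMod.natCast_eq_zero_iff] at h1
  have h2 := Nat.le_of_dvd (by norm_num) h1
  have h3 := (Fact.out : p.Prime).two_le
  obtain ⟨a, ha⟩ := hodd
  omega

theorem class_mem5 [Fact p.Prime] (hodd : Odd p) {l : Fin 5 → Kˣ}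
    {t : Additive Kˣ ⊗[ℤ] Additive Kˣ}
    (ht : t ∈ AddSubgroup.closure {s | ∃ a ∈ rat C p l, ∃ b ∈ rat C p l,
      s = Additive.ofMul a ⊗ₜ[ℤ] Additive.ofMul b}) :
    ∃ A : Fin 5 → Fin 5 → ZMod p, Skew A ∧
      two K p t = T (symL K p) A fun i => cl K p (l i : K) := by
  induction ht using AddSubgroup.closure_induction with
  | mem t ht =>
    obtain ⟨a, ha, b, hb, rfl⟩ := ht
    obtain ⟨u, hu, he⟩ := rat_mem ha
    obtain ⟨v, hv, hf⟩ := rat_mem hb
    rw [← symL_mk, ← cl_unit, ← cl_unit, he, hf]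
    exact symb _ (env (K := K) hodd).alt (two_ne hodd) _ u v hu hv
  | zero =>
    refine ⟨fun _ _ => 0, ⟨fun _ _ => by simp, fun _ => rfl, fun _ => by simp⟩, ?_⟩
    rw [map_zero]
    unfold T
    simp
  | add s t _ _ hs ht =>
    obtain ⟨A, hA, h1⟩ := hs
    obtain ⟨A', hA', h2⟩ := ht
    refine ⟨fun i j => A i j + A' i j, ⟨fun i j => ?_, fun i => ?_, fun i => ?_⟩, ?_⟩
    · rw [hA.anti i j, hA'.anti i j]
      ring
    · rw [hA.diag, hA'.diag, add_zero]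
    · rw [Finset.sum_add_distrib, hA.row, hA'.row, add_zero]
    · rw [map_add, h1, h2, T_add]
  | neg t _ ht =>
    obtain ⟨A, hA, h1⟩ := ht
    refine ⟨fun i j => -A i j, ⟨fun i j => ?_, fun i => ?_, fun i => ?_⟩, ?_⟩
    · rw [hA.anti i j]
    · rw [hA.diag, neg_zero]
    · rw [Finset.sum_neg_distrib, hA.row, neg_zero]
    · rw [map_neg, h1, T_neg]

omit [IsAlgClosed C] in
theorem dep_of {f g h : K} {l : Fin 5 → Kˣ}
    (hl : ∀ i, ∃ a b c : C, (l i : K) = a • f + b • g + c • h) :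
    Dep C fun i => (l i : K) := by
  choose a b c habc using hl
  intro i j m n
  let φ : (Fin 4 → C) →ₗ[C] (Fin 3 → C) := Matrix.mulVecLin
    !![a i, a j, a m, a n; b i, b j, b m, b n; c i, c j, c m, c n]
  have hk : LinearMap.ker φ ≠ ⊥ := LinearMap.ker_ne_bot_of_finrank_lt (by simp)
  obtain ⟨x, hx, hx0⟩ := Submodule.exists_mem_ne_zero_of_ne_bot hk
  rw [LinearMap.mem_ker] at hx
  have e0 := congrFun hx 0
  have e1 := congrFun hx 1
  have e2 := congrFun hx 2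
  simp [φ, Matrix.mulVec, dotProduct, Fin.sum_univ_four] at e0 e1 e2
  refine ⟨x 0, x 1, x 2, x 3, ?_, ?_⟩
  · rintro ⟨h0, h1, h2, h3⟩
    apply hx0
    ext q
    fin_cases q
    · exact h0
    · exact h1
    · exact h2
    · exact h3
  · beta_reduce
    rw [habc i, habc j, habc m, habc n]
    have : x 0 • (a i • f + b i • g + c i • h) + x 1 • (a j • f + b j • g + c j • h) +
        x 2 • (a m • f + b m • g + c m • h) + x 3 • (a n • f + b n • g + c n • h) =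
        (a i * x 0 + a j * x 1 + a m * x 2 + a n * x 3) • f +
        (b i * x 0 + b j * x 1 + b m * x 2 + b n * x 3) • g +
        (c i * x 0 + c j * x 1 + c m * x 2 + c n * x 3) • h := by module
    rw [this, e0, e1, e2]
    simp

theorem fin_good [Fact p.Prime] {t : Additive Kˣ ⊗[ℤ] Additive Kˣ} {A : Fin 5 → Fin 5 → ZMod p}
    {e : Fin 5 → KOne K p} (h1 : two K p t = T (symL K p) A e) (h2 : Good (symL K p) A e) :
    ∃ a b : Kˣ, t - Additive.ofMul a ⊗ₜ[ℤ] Additive.ofMul b ∈ kRel K p := by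
  obtain ⟨f, h, hfh⟩ := h2
  obtain ⟨a, rfl⟩ := cl_surj f
  obtain ⟨b, rfl⟩ := cl_surj h
  refine ⟨a, b, ?_⟩
  rw [cl_unit, cl_unit, symL_mk, ← h1] at hfh
  rw [← two_eq_zero, map_sub, ← hfh, sub_self]

/-- exponent five -/
theorem main5 {f g h : K} {l : Fin 5 → Kˣ}
    (hl : ∀ i, ∃ a b c : C, (l i : K) = a • f + b • g + c • h)
    (t : Additive Kˣ ⊗[ℤ] Additive Kˣ)
    (ht : t ∈ AddSubgroup.closure {s | ∃ a ∈ rat C 5 l, ∃ b ∈ rat C 5 l,
      s = Additive.ofMul a ⊗ₜ[ℤ] Additive.ofMul b}) :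
    ∃ a b : Kˣ, t - Additive.ofMul a ⊗ₜ[ℤ] Additive.ofMul b ∈ kRel K 5 := by
  have : Fact (Nat.Prime 5) := ⟨by norm_num⟩
  have hodd : Odd 5 := by decide
  obtain ⟨A, hA, h1⟩ := class_mem5 hodd ht
  exact fin_good h1 (good_main (env (K := K) hodd) (cl_const (C := C) (by norm_num))
    (fun i => (l i).ne_zero) (dep_of hl) hA (comb hA))

/-- all odd primes -/
theorem main_all (hp : p.Prime) (hodd : Odd p) {f g h : K} {l : Fin 5 → Kˣ}
    (hl : ∀ i, ∃ a b c : C, (l i : K) = a • f + b • g + c • h) (n : Fin 5 → Fin 5 → ℤ)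
    (hn : ∀ i j, n j i = -n i j) (hs : ∀ i, ∑ j, n i j = 0)
    (hc : (∃ i j, i ≠ j ∧ (p : ℤ) ∣ n i j) ∨
      ∃ i j m, i ≠ j ∧ i ≠ m ∧ j ≠ m ∧ (p : ℤ) ∣ n i j + n i m) :
    ∃ a b : Kˣ, (∑ i, ∑ j, if i < j then n i j • (Additive.ofMul (l i) ⊗ₜ[ℤ] Additive.ofMul (l j))
      else 0) - Additive.ofMul a ⊗ₜ[ℤ] Additive.ofMul b ∈ kRel K p := by
  have : Fact p.Prime := ⟨hp⟩
  have k2 := two_ne (p := p) hodd
  have V := env (K := K) hodd
  have hA : Skew fun i j => (2 : ZMod p)⁻¹ * (n i j : ZMod p) := by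
    refine ⟨fun i j => ?_, fun i => ?_, fun i => ?_⟩
    · rw [hn i j]
      push_cast
      ring
    · have h0 : n i i = 0 := by
        have := hn i i
        omega
      rw [h0, Int.cast_zero, mul_zero]
    · rw [← Finset.mul_sum, ← Int.cast_sum, hs, Int.cast_zero, mul_zero]
  refine fin_good (A := fun i j => (2 : ZMod p)⁻¹ * (n i j : ZMod p))
    (e := fun i => cl K p (l i : K)) ?_ (good_main V (cl_const (C := C) hp.pos)
    (fun i => (l i).ne_zero) (dep_of hl) hA ?_)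
  · rw [T_eq V.alt hA]
    have e1 : ∀ i j, symL K p (cl K p (l i : K)) (cl K p (l j : K)) =
        two K p (Additive.ofMul (l i) ⊗ₜ[ℤ] Additive.ofMul (l j)) := by
      intro i j
      rw [cl_unit, cl_unit, symL_mk]
    have e2 : ∀ i j, (n i j : ZMod p) • symL K p (cl K p (l i : K)) (cl K p (l j : K)) =
        two K p (n i j • (Additive.ofMul (l i) ⊗ₜ[ℤ] Additive.ofMul (l j))) := by
      intro i j
      rw [e1, map_zsmul, Int.cast_smul_eq_zsmul]
    simp only [mul_smul, e2, Fin.sum_univ_five]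
    have d : ∀ x : KTwo K p, (2 : ZMod p) • (2 : ZMod p)⁻¹ • x = x := fun x =>
      smul_inv_smul₀ k2 x
    simp only [smul_add, d]
    simp only [← map_add]
    congr 1
  · rcases hc with ⟨i, j, h1, h2⟩ | ⟨i, j, m, h1, h2, h3, h4⟩
    · refine Or.inl ⟨i, j, h1, ?_⟩
      rw [(ZMod.intCast_zmod_eq_zero_iff_dvd _ _).mpr h2, mul_zero]
    · refine Or.inr ⟨i, j, m, h1, h2, h3, ?_⟩
      rw [← mul_add, ← Int.cast_add, (ZMod.intCast_zmod_eq_zero_iff_dvd _ _).mpr h4, mul_zero]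

end conc5

end MP5bbd
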