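import Mathlib

/-!
# Symbols on the complement of the complete quadrilateral

Let `p ≥ 5` be a prime, `K` a field, `x, y ∈ K` with `x, y ≠ 0, 1` and `x ≠ y`. We show that every
element of the subgroup of `K₂(K)/p` generated by the symbols of the five elements
`x, u = 1 - x, y, v = 1 - y, d = x - y` is one symbol.

The relations `{x,u} = {y,v} = 0`, `{y,d} = {x,d} - {x,y}`, `{v,d} = {u,d} - {u,v}` show that every
class has the form `W = {x, y^a1 v^a2 d^a3} + {u, y^b1 v^b2 d^b3}`.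
* If `a3 = b3 = 0`, the class is `{y x^a2 u^b2, v x^(-a1) u^(-b1)}` (`sym_zero`).
* If `a1, a3, a1 b3 - a3 b1` are nonzero, the class is a symbol of products of the five elements
  (`sym_L1`); there is a mirror image (`sym_L2`) and a degenerate case (`sym_par`).
* If `a3 = 0 ≠ b3` we use the curve `g = x + y - x y = 0`, which meets the six lines in triple
  points only: `{g U, (u v)^i (y u / x)^j}` is unramified along it (`sym_G`). The class is of this
  form if a cubic polynomial has a non-zero value at some `t ≠ 0, -1, -1/2`. If it has none, the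
  values at `t = 1, -2, -1/3, -2/3` give `40 b3 = 0`, so `p = 5`, where we use the action of
  the symmetric group `S₅` (`W_s2`, `W_s3`, `W_s4`) (`PS_a3`).
* The symmetries `(x, y) ↦ (1 - x, 1 - y)` and `(x, y) ↦ (x, (x - y)/(1 - y))` reduce the
  remaining cases to these (`PS_main`).
-/

set_option autoImplicit false
open scoped TensorProduct

namespace MP5bbd

section abstr

variable {k : Type*} [Field k] {E Q : Type*} [AddCommGroup E] [Module k E] [AddCommGroup Q]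
  [Module k Q]

/-- the relations between the five basic units -/
structure Rel (B : E →ₗ[k] E →ₗ[k] Q) (x u y v d : E) : Prop where
  alt : ∀ e, B e e = 0
  xu : B x u = 0
  yv : B y v = 0
  yd : B y d = B x d - B x y
  vd : B v d = B u d - B u v

/-- the class with coordinates `a1, a2, a3, b1, b2, b3` -/
def W (B : E →ₗ[k] E →ₗ[k] Q) (x u y v d : E) (a1 a2 a3 b1 b2 b3 : k) : Q :=
  a1 • B x y + a2 • B x v + a3 • B x d + b1 • B u y + b2 • B u v + b3 • B u d

theorem anti {B : E →ₗ[k] E →ₗ[k] Q} (h : ∀ e, B e e = 0) (a b : E) : B a b = -B b a := by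
  have h1 := h (a + b)
  simp only [map_add, LinearMap.add_apply, h, zero_add, add_zero] at h1
  exact eq_neg_of_add_eq_zero_right h1

/-- `α3 = β3 = 0` -/
theorem sym_zero {B : E →ₗ[k] E →ₗ[k] Q} {x u y v d : E} (R : Rel B x u y v d)
    (a1 a2 b1 b2 : k) : ∃ e f, B e f = W B x u y v d a1 a2 0 b1 b2 0 := by
  refine ⟨y + a2 • x + b2 • u, v - a1 • x - b1 • u, ?_⟩
  simp only [W, map_add, map_sub, map_smul, LinearMap.add_apply, LinearMap.smul_apply, R.alt,
    R.xu, R.yv, anti R.alt y x, anti R.alt y u, anti R.alt u x]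
  module

/-- case L1 -/
theorem sym_L1 {B : E →ₗ[k] E →ₗ[k] Q} {x u y v d : E} (R : Rel B x u y v d)
    (a1 a2 a3 b1 b2 b3 : k) (h1 : a1 ≠ 0) (h3 : a3 ≠ 0) (h : a1 * b3 - a3 * b1 ≠ 0) :
    ∃ e f, B e f = W B x u y v d a1 a2 a3 b1 b2 b3 := by
  obtain ⟨n, hn⟩ : ∃ n, n * a1 = a1 * b3 - a3 * b1 := ⟨(a1 * b3 - a3 * b1) / a1, by field_simp⟩
  obtain ⟨s, hs⟩ : ∃ s, s * a3 = -(a1 * b3 - a3 * b1) := ⟨-(a1 * b3 - a3 * b1) / a3, by field_simp⟩
  obtain ⟨l, hl⟩ : ∃ l, l * a1 = a3 := ⟨a3 / a1, by field_simp⟩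
  have hs0 : s ≠ 0 := by
    rintro rfl
    apply h
    rw [zero_mul] at hs
    exact neg_eq_zero.mp hs.symm
  have hsl : s * l = -n := by
    apply mul_right_cancel₀ h1
    linear_combination s * hl + hs + hn
  have hb : l * b1 - s * l = b3 := by
    apply mul_right_cancel₀ h1
    linear_combination b1 * hl - a1 * hsl + hn
  refine ⟨s⁻¹ • (s • (y + l • d) + a2 • x + (b2 + n) • u), s • v - a1 • x - b1 • u, ?_⟩
  rw [map_smul, LinearMap.smul_apply, inv_smul_eq_iff₀ hs0]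
  simp only [W, map_add, map_sub, map_smul, LinearMap.add_apply, LinearMap.smul_apply, R.alt,
    R.xu, R.yv, anti R.alt y x, anti R.alt y u, anti R.alt u x, anti R.alt d v, anti R.alt d x,
    anti R.alt d u, R.vd]
  match_scalars <;>
  first
  | ring1
  | linear_combination s * hl
  | linear_combination s * hsl
  | linear_combination s * hb

/-- `Δ13 = Δ23 = 0` and `(α3, β3) ≠ 0` -/
theorem sym_par {B : E →ₗ[k] E →ₗ[k] Q} {x u y v d : E}
    (a1 a2 a3 b1 b2 b3 : k) (h13 : a1 * b3 - a3 * b1 = 0) (h23 : a2 * b3 - a3 * b2 = 0)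
    (h3 : a3 ≠ 0 ∨ b3 ≠ 0) :
    ∃ e f, B e f = W B x u y v d a1 a2 a3 b1 b2 b3 := by
  obtain ⟨c1, c2, e1, e2, e3, e4⟩ : ∃ c1 c2 : k, c1 * a3 = a1 ∧ c2 * a3 = a2 ∧ c1 * b3 = b1 ∧
      c2 * b3 = b2 := by
    rcases h3 with h | h
    · refine ⟨a1 / a3, a2 / a3, by field_simp, by field_simp, ?_, ?_⟩
      · field_simp
        linear_combination h13
      · field_simp
        linear_combination h23
    · refine ⟨b1 / b3, b2 / b3, ?_, ?_, by field_simp, by field_simp⟩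
      · field_simp
        linear_combination -h13
      · field_simp
        linear_combination -h23
  refine ⟨a3 • x + b3 • u, c1 • y + c2 • v + d, ?_⟩
  rw [← e1, ← e2, ← e3, ← e4]
  simp only [W, map_add, map_smul, LinearMap.add_apply, LinearMap.smul_apply]
  module

/-- case L2 -/
theorem sym_L2 {B : E →ₗ[k] E →ₗ[k] Q} {x u y v d : E} (R : Rel B x u y v d)
    (a1 a2 a3 b1 b2 b3 : k) (h1 : b2 ≠ 0) (h3 : b3 ≠ 0) (h : a2 * b3 - a3 * b2 ≠ 0) :
    ∃ e f, B e f = W B x u y v d a1 a2 a3 b1 b2 b3 := by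
  have R' : Rel B u x v y d := by
    refine ⟨R.alt, ?_, ?_, ?_, ?_⟩
    · rw [anti R.alt, R.xu, neg_zero]
    · rw [anti R.alt, R.yv, neg_zero]
    · exact R.vd
    · exact R.yd
  obtain ⟨e, f, hef⟩ := sym_L1 R' b2 b1 b3 a2 a1 a3 h1 h3 (by
    intro h'
    apply h
    linear_combination -h')
  refine ⟨e, f, hef.trans ?_⟩
  simp only [W]
  module

/-- the G-family -/
theorem sym_G {B : E →ₗ[k] E →ₗ[k] Q} {x u y v d g : E} (R : Rel B x u y v d)
    (hg1 : B g (u + v) = 0) (hg2 : B g (y + u - x) = B x y)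
    (a1 a2 b1 b2 b3 : k) (t : k) (h0 : t ≠ 0) (h1 : t + 1 ≠ 0) (h2 : 2 * t + 1 ≠ 0)
    (hP : (2 * t + 1) * (b2 - t * b1 + (t + 1) * a2 - t * (t + 1) * a1) - t ^ 2 * b3 ≠ 0) :
    ∃ e f, B e f = W B x u y v d a1 a2 0 b1 b2 b3 := by
  set P := (2 * t + 1) * (b2 - t * b1 + (t + 1) * a2 - t * (t + 1) * a1) - t ^ 2 * b3 with hPdef
  obtain ⟨j, hj⟩ : ∃ j, j * ((2 * t + 1) * t * (t + 1)) = -P :=
    ⟨-P / ((2 * t + 1) * t * (t + 1)), by field_simp⟩
  have hj0 : j ≠ 0 := by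
    rintro rfl
    rw [zero_mul] at hj
    exact hP (neg_eq_zero.mp hj.symm)
  obtain ⟨U4, hU4⟩ : ∃ U4, (2 * t + 1) * j * U4 = -b3 := ⟨-b3 / ((2 * t + 1) * j), by field_simp⟩
  obtain ⟨U3, hU3⟩ : ∃ U3, j * U3 = a2 := ⟨a2 / j, by field_simp⟩
  obtain ⟨U2, hU2⟩ : ∃ U2, j * (1 + U2 + U4) = a1 := ⟨a1 / j - 1 - U4, by field_simp; ring⟩
  obtain ⟨U1, hU1⟩ : ∃ U1, j * U1 - (t + 1) * j * U2 = b1 := ⟨(b1 + (t + 1) * j * U2) / j, by
    field_simp; ring⟩
  have hb2 : t * j * U1 - (t + 1) * j * U3 + t * j * U4 = b2 := by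
    have e : (2 * t + 1) ≠ 0 := h2
    apply mul_left_cancel₀ e
    have k1 : (2 * t + 1) * j * (t + 1) * t = -P := by linear_combination hj
    linear_combination (2 * t + 1) * t * hU1 - (2 * t + 1) * (t + 1) * hU3 + (2 * t + 1) * t * (t + 1) * hU2 - k1 + (-t ^ 2) * hU4
  refine ⟨g + U1 • u + U2 • y + U3 • v + U4 • d, (t * j) • (u + v) + j • (y + u - x), ?_⟩
  have hgu : B g u = -B g v := by
    rw [map_add] at hg1
    exact eq_neg_of_add_eq_zero_left hg1
  have hgy : B g y = B x y - B g u + B g x := by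
    rw [← hg2, map_sub, map_add]
    abel
  simp only [W, map_add, map_sub, map_smul, LinearMap.add_apply, LinearMap.smul_apply, R.alt,
    R.xu, R.yv, anti R.alt y x, anti R.alt y u, anti R.alt u x, anti R.alt d v, anti R.alt d x,
    anti R.alt d u, anti R.alt d y, anti R.alt v x, anti R.alt v u, anti R.alt v y, R.vd, R.yd,
    hgy, hgu]
  match_scalars <;>
  first
  | ring1
  | linear_combination hU1
  | linear_combination hU2
  | linear_combination hU3
  | linear_combination hU4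
  | linear_combination hb2
  | linear_combination -hU1
  | linear_combination -hU2
  | linear_combination -hU3
  | linear_combination -hU4

/-! ### transformations -/

theorem W_s1 (B : E →ₗ[k] E →ₗ[k] Q) (x u y v d : E) (a1 a2 a3 b1 b2 b3 : k) :
    W B x u y v d a1 a2 a3 b1 b2 b3 = W B u x v y d b2 b1 b3 a2 a1 a3 := by
  simp only [W]
  module

theorem W_s2 {B : E →ₗ[k] E →ₗ[k] Q} {x u y v d : E} (R : Rel B x u y v d)
    (a1 a2 a3 b1 b2 b3 : k) :
    W B x u y v d a1 a2 a3 b1 b2 b3 =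
      W B y v x u d (-a1 - a3) (-b1) a3 (-a2) (-b2 - b3) b3 := by
  simp only [W, R.yd, R.vd, anti R.alt y x, anti R.alt y u, anti R.alt v x, anti R.alt v u]
  module

theorem W_s3 {B : E →ₗ[k] E →ₗ[k] Q} {x u y v d : E} (R : Rel B x u y v d)
    (a1 a2 a3 b1 b2 b3 : k) :
    W B x u y v d a1 a2 a3 b1 b2 b3 =
      W B (-x) (u - x) (-y) (v - y) (d - x - y) (a1 + a2 + a3 + b1 + b2 + b3) (-(a2 + b2))
        (-(a3 + b3)) (-(b1 + b2 + b3)) b2 b3 := by
  simp only [W, map_sub, map_neg, LinearMap.sub_apply, LinearMap.neg_apply, R.alt, R.xu,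
    anti R.alt u x]
  module

theorem W_s4 {B : E →ₗ[k] E →ₗ[k] Q} {x u y v d : E} (R : Rel B x u y v d)
    (a1 a2 a3 b1 b2 b3 : k) :
    W B x u y v d a1 a2 a3 b1 b2 b3 =
      W B x u (x - y) (d - y) (x + v - y) (-(a1 + a2 + a3)) a3 a2 (-(b1 + b2 + b3)) b3 b2 := by
  simp only [W, map_sub, map_add, R.alt, R.xu, anti R.alt u x]
  module

theorem W_s6 {B : E →ₗ[k] E →ₗ[k] Q} {x u y v d : E} (R : Rel B x u y v d)
    (a1 a2 a3 b1 b2 b3 : k) :
    W B x u y v d a1 a2 a3 b1 b2 b3 =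
      W B x u (d - v) (u - v) (y + u - v) a3 (-(a1 + a2 + a3)) a1 b3 (-(b1 + b2 + b3)) b1 := by
  simp only [W, map_sub, map_add, R.alt, R.xu, anti R.alt u x]
  module

/-- `B e f` for `e`, `f` in the span of the five basic elements -/
theorem B_eq_W {B : E →ₗ[k] E →ₗ[k] Q} {x u y v d : E} (R : Rel B x u y v d)
    (e0 e1 e2 e3 e4 f0 f1 f2 f3 f4 : k) :
    B (e0 • x + e1 • u + e2 • y + e3 • v + e4 • d) (f0 • x + f1 • u + f2 • y + f3 • v + f4 • d) =
      W B x u y v d (e0 * f2 - f0 * e2 - (e2 * f4 - e4 * f2)) (e0 * f3 - f0 * e3)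
        (e0 * f4 - f0 * e4 + (e2 * f4 - e4 * f2)) (e1 * f2 - f1 * e2)
        (e1 * f3 - f1 * e3 - (e3 * f4 - e4 * f3)) (e1 * f4 - f1 * e4 + (e3 * f4 - e4 * f3)) := by
  simp only [W, map_add, map_smul, LinearMap.add_apply, LinearMap.smul_apply, R.alt,
    R.xu, R.yv, anti R.alt y x, anti R.alt y u, anti R.alt u x, anti R.alt d v, anti R.alt d x,
    anti R.alt d u, anti R.alt d y, anti R.alt v x, anti R.alt v u, anti R.alt v y, R.vd, R.yd]
  module

end abstr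

/-! ### the environment given by a field -/

section env

variable {k : Type*} [Field k] {E Q : Type*} [AddCommGroup E] [Module k E] [AddCommGroup Q]
  [Module k Q] {K : Type*} [Field K]

/-- `c : K → E` is the logarithm (of nonzero elements), `B` the symbol -/
structure Env (B : E →ₗ[k] E →ₗ[k] Q) (c : K → E) : Prop where
  alt : ∀ e, B e e = 0
  mul : ∀ a b, a ≠ 0 → b ≠ 0 → c (a * b) = c a + c b
  neg : ∀ a, c (-a) = c a
  st : ∀ a b, a ≠ 0 → b ≠ 0 → a + b = 1 → B (c a) (c b) = 0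

theorem Env.one {B : E →ₗ[k] E →ₗ[k] Q} {c : K → E} (V : Env B c) : c 1 = 0 := by
  have h := V.mul 1 1 one_ne_zero one_ne_zero
  rw [mul_one] at h
  exact left_eq_add.mp h

theorem Env.inv {B : E →ₗ[k] E →ₗ[k] Q} {c : K → E} (V : Env B c) {a : K} (ha : a ≠ 0) :
    c a⁻¹ = -c a := by
  have h := V.mul a a⁻¹ ha (inv_ne_zero ha)
  rw [mul_inv_cancel₀ ha, V.one] at h
  exact (neg_eq_of_add_eq_zero_right h.symm).symm

theorem Env.div {B : E →ₗ[k] E →ₗ[k] Q} {c : K → E} (V : Env B c) {a b : K} (ha : a ≠ 0)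
    (hb : b ≠ 0) : c (a / b) = c a - c b := by
  rw [div_eq_mul_inv, V.mul a b⁻¹ ha (inv_ne_zero hb), V.inv hb, sub_eq_add_neg]

/-- the relation given by `a + b = s` -/
theorem Env.three {B : E →ₗ[k] E →ₗ[k] Q} {c : K → E} (V : Env B c) {a b s : K} (ha : a ≠ 0)
    (hb : b ≠ 0) (hs : s ≠ 0) (h : a + b = s) : B (c a) (c b) - B (c a) (c s) + B (c b) (c s) = 0 := by
  have h1 := V.st (a / s) (b / s) (div_ne_zero ha hs) (div_ne_zero hb hs) (by
    rw [← add_div, h, div_self hs])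
  rw [V.div ha hs, V.div hb hs] at h1
  simp only [map_sub, LinearMap.sub_apply, V.alt] at h1
  rw [anti V.alt (c s) (c b)] at h1
  rw [← h1]
  abel

/-- admissible pairs -/
def Adm (x y : K) : Prop := x ≠ 0 ∧ x ≠ 1 ∧ y ≠ 0 ∧ y ≠ 1 ∧ x ≠ y

theorem Env.rel {B : E →ₗ[k] E →ₗ[k] Q} {c : K → E} (V : Env B c) {x y : K} (h : Adm x y) :
    Rel B (c x) (c (1 - x)) (c y) (c (1 - y)) (c (x - y)) := by
  obtain ⟨hx0, hx1, hy0, hy1, hxy⟩ := h
  have hu : 1 - x ≠ 0 := sub_ne_zero.mpr hx1.symm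
  have hv : 1 - y ≠ 0 := sub_ne_zero.mpr hy1.symm
  have hd : x - y ≠ 0 := sub_ne_zero.mpr hxy
  refine ⟨V.alt, V.st _ _ hx0 hu (by ring), V.st _ _ hy0 hv (by ring), ?_, ?_⟩
  · have h1 := V.three hy0 hd hx0 (by ring : y + (x - y) = x)
    rw [anti V.alt (c y) (c x), anti V.alt (c (x - y)) (c x)] at h1
    rw [← sub_eq_zero, ← h1]
    abel
  · have h1 := V.three hu hd hv (by ring : (1 - x) + (x - y) = 1 - y)
    rw [anti V.alt (c (x - y)) (c (1 - y))] at h1
    have h2 : B (c (1 - y)) (c (x - y)) - (B (c (1 - x)) (c (x - y)) - B (c (1 - x)) (c (1 - y))) =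
        -(B (c (1 - x)) (c (x - y)) - B (c (1 - x)) (c (1 - y)) + -B (c (1 - y)) (c (x - y))) := by
      abel
    rw [← sub_eq_zero, h2, h1, neg_zero]

/-- the class is a symbol -/
def PS (B : E →ₗ[k] E →ₗ[k] Q) (c : K → E) (x y : K) (a1 a2 a3 b1 b2 b3 : k) : Prop :=
  ∃ e f, B e f = W B (c x) (c (1 - x)) (c y) (c (1 - y)) (c (x - y)) a1 a2 a3 b1 b2 b3

variable {B : E →ₗ[k] E →ₗ[k] Q} {c : K → E}

theorem PS_s1 (V : Env B c) {x y : K} {a1 a2 a3 b1 b2 b3 : k}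
    (h : PS B c (1 - x) (1 - y) b2 b1 b3 a2 a1 a3) : PS B c x y a1 a2 a3 b1 b2 b3 := by
  obtain ⟨e, f, hef⟩ := h
  refine ⟨e, f, ?_⟩
  rw [hef, W_s1 B (c x)]
  have e1 : (1 : K) - (1 - x) = x := by ring
  have e2 : (1 : K) - (1 - y) = y := by ring
  have e3 : (1 : K) - x - (1 - y) = -(x - y) := by ring
  rw [e1, e2, e3, V.neg]

theorem PS_s2 (V : Env B c) {x y : K} (hA : Adm x y) {a1 a2 a3 b1 b2 b3 : k}
    (h : PS B c y x (-a1 - a3) (-b1) a3 (-a2) (-b2 - b3) b3) : PS B c x y a1 a2 a3 b1 b2 b3 := by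
  obtain ⟨e, f, hef⟩ := h
  refine ⟨e, f, ?_⟩
  rw [hef, W_s2 (V.rel hA)]
  have e3 : y - x = -(x - y) := by ring
  rw [e3, V.neg]

theorem PS_s3 (V : Env B c) {x y : K} (hA : Adm x y) {a1 a2 a3 b1 b2 b3 : k}
    (h : PS B c x⁻¹ y⁻¹ (a1 + a2 + a3 + b1 + b2 + b3) (-(a2 + b2))
        (-(a3 + b3)) (-(b1 + b2 + b3)) b2 b3) : PS B c x y a1 a2 a3 b1 b2 b3 := by
  obtain ⟨e, f, hef⟩ := h
  refine ⟨e, f, ?_⟩
  rw [hef, W_s3 (V.rel hA)]
  obtain ⟨hx0, hx1, hy0, hy1, hxy⟩ := hA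
  have hu : 1 - x ≠ 0 := sub_ne_zero.mpr hx1.symm
  have hv : 1 - y ≠ 0 := sub_ne_zero.mpr hy1.symm
  have hd : x - y ≠ 0 := sub_ne_zero.mpr hxy
  have e1 : 1 - x⁻¹ = -((1 - x) / x) := by field_simp; ring
  have e2 : 1 - y⁻¹ = -((1 - y) / y) := by field_simp; ring
  have e3 : x⁻¹ - y⁻¹ = -((x - y) / x / y) := by field_simp; ring
  rw [e1, e2, e3, V.neg, V.neg, V.neg, V.inv hx0, V.inv hy0, V.div hu hx0, V.div hv hy0,
    V.div (div_ne_zero hd hx0) hy0, V.div hd hx0]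

theorem PS_s4 (V : Env B c) {x y : K} (hA : Adm x y) {a1 a2 a3 b1 b2 b3 : k}
    (h : PS B c x (x / y) (-(a1 + a2 + a3)) a3 a2 (-(b1 + b2 + b3)) b3 b2) :
    PS B c x y a1 a2 a3 b1 b2 b3 := by
  obtain ⟨e, f, hef⟩ := h
  refine ⟨e, f, ?_⟩
  rw [hef, W_s4 (V.rel hA)]
  obtain ⟨hx0, hx1, hy0, hy1, hxy⟩ := hA
  have hv : 1 - y ≠ 0 := sub_ne_zero.mpr hy1.symm
  have hd : x - y ≠ 0 := sub_ne_zero.mpr hxy
  have e1 : 1 - x / y = -((x - y) / y) := by field_simp; ring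
  have e2 : x - x / y = -(x * (1 - y) / y) := by field_simp; ring
  rw [e1, e2, V.neg, V.neg, V.div hx0 hy0, V.div hd hy0, V.div (mul_ne_zero hx0 hv) hy0,
    V.mul _ _ hx0 hv]

theorem PS_s6 (V : Env B c) {x y : K} (hA : Adm x y) {a1 a2 a3 b1 b2 b3 : k}
    (h : PS B c x ((x - y) / (1 - y)) a3 (-(a1 + a2 + a3)) a1 b3 (-(b1 + b2 + b3)) b1) :
    PS B c x y a1 a2 a3 b1 b2 b3 := by
  obtain ⟨e, f, hef⟩ := h
  refine ⟨e, f, ?_⟩
  rw [hef, W_s6 (V.rel hA)]
  obtain ⟨hx0, hx1, hy0, hy1, hxy⟩ := hA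
  have hu : 1 - x ≠ 0 := sub_ne_zero.mpr hx1.symm
  have hv : 1 - y ≠ 0 := sub_ne_zero.mpr hy1.symm
  have hd : x - y ≠ 0 := sub_ne_zero.mpr hxy
  have e1 : 1 - (x - y) / (1 - y) = (1 - x) / (1 - y) := by field_simp; ring
  have e2 : x - (x - y) / (1 - y) = y * (1 - x) / (1 - y) := by field_simp; ring
  rw [e1, e2, V.div hd hv, V.div hu hv, V.div (mul_ne_zero hy0 hu) hv, V.mul _ _ hy0 hu]

theorem Adm.s1 {x y : K} (h : Adm x y) : Adm (1 - x) (1 - y) := by
  obtain ⟨hx0, hx1, hy0, hy1, hxy⟩ := h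
  refine ⟨sub_ne_zero.mpr hx1.symm, fun h => hx0 ?_, sub_ne_zero.mpr hy1.symm, fun h => hy0 ?_,
    fun h => hxy ?_⟩
  · linear_combination -h
  · linear_combination -h
  · linear_combination -h

theorem Adm.s2 {x y : K} (h : Adm x y) : Adm y x := by
  obtain ⟨hx0, hx1, hy0, hy1, hxy⟩ := h
  exact ⟨hy0, hy1, hx0, hx1, hxy.symm⟩

theorem Adm.s3 {x y : K} (h : Adm x y) : Adm x⁻¹ y⁻¹ := by
  obtain ⟨hx0, hx1, hy0, hy1, hxy⟩ := h
  refine ⟨inv_ne_zero hx0, fun h => hx1 (inv_eq_one.mp h), inv_ne_zero hy0,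
    fun h => hy1 (inv_eq_one.mp h), fun h => hxy (inv_injective h)⟩

theorem Adm.s4 {x y : K} (h : Adm x y) : Adm x (x / y) := by
  obtain ⟨hx0, hx1, hy0, hy1, hxy⟩ := h
  refine ⟨hx0, hx1, div_ne_zero hx0 hy0, fun h => hxy ?_, fun h => hy1 ?_⟩
  · rwa [div_eq_one_iff_eq hy0] at h
  · rw [eq_div_iff hy0] at h
    exact mul_left_cancel₀ hx0 (h.trans (mul_one x).symm)

theorem Adm.s6 {x y : K} (h : Adm x y) : Adm x ((x - y) / (1 - y)) := by
  obtain ⟨hx0, hx1, hy0, hy1, hxy⟩ := h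
  have hv : 1 - y ≠ 0 := sub_ne_zero.mpr hy1.symm
  refine ⟨hx0, hx1, div_ne_zero (sub_ne_zero.mpr hxy) hv, fun h => hx1 ?_, fun h => ?_⟩
  · rw [div_eq_one_iff_eq hv] at h
    linear_combination h
  · rw [eq_div_iff hv] at h
    have h2 : y * (1 - x) = 0 := by linear_combination h
    rcases mul_eq_zero.mp h2 with h3 | h3
    · exact hy0 h3
    · exact hx1 (sub_eq_zero.mp h3).symm

theorem PS_G (V : Env B c) {x y : K} (hA : Adm x y) {a1 a2 b1 b2 b3 : k} (t : k) (h0 : t ≠ 0)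
    (h1 : t + 1 ≠ 0) (h2 : 2 * t + 1 ≠ 0)
    (hP : (2 * t + 1) * (b2 - t * b1 + (t + 1) * a2 - t * (t + 1) * a1) - t ^ 2 * b3 ≠ 0) :
    PS B c x y a1 a2 0 b1 b2 b3 := by
  have R := V.rel hA
  obtain ⟨hx0, hx1, hy0, hy1, hxy⟩ := hA
  have hu : 1 - x ≠ 0 := sub_ne_zero.mpr hx1.symm
  have hv : 1 - y ≠ 0 := sub_ne_zero.mpr hy1.symm
  by_cases hg : x + y - x * y = 0
  · -- `(1 - x) (1 - y) = 1`
    have e1 : 1 - y = (1 - x)⁻¹ := by
      field_simp
      linear_combination -hg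
    have e2 : y = -(x / (1 - x)) := by
      field_simp
      linear_combination hg
    have e3 : c (1 - y) = -c (1 - x) := by rw [e1, V.inv hu]
    have e4 : c y = c x - c (1 - x) := by
      have : c y = c (-(x / (1 - x))) := by rw [← e2]
      rw [this, V.neg, V.div hx0 hu]
    refine ⟨b3 • c (1 - x), c (x - y), ?_⟩
    rw [e3, e4]
    simp only [W, map_sub, map_neg, map_smul, LinearMap.smul_apply, R.alt, R.xu,
      anti R.alt (c (1 - x)) (c x)]
    module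
  · refine sym_G R (g := c (x + y - x * y)) ?_ ?_ a1 a2 b1 b2 b3 t h0 h1 h2 hP
    · rw [← V.mul _ _ hu hv]
      exact V.st _ _ hg (mul_ne_zero hu hv) (by ring)
    · have h3 := V.three hx0 (mul_ne_zero hy0 hu) hg (by ring : x + y * (1 - x) = x + y - x * y)
      rw [V.mul _ _ hy0 hu, anti V.alt (c x) (c (x + y - x * y)),
        anti V.alt (c y + c (1 - x)) (c (x + y - x * y)), map_add (B (c x)), R.xu] at h3
      rw [map_sub]
      have h4 : B (c (x + y - x * y)) (c y + c (1 - x)) - B (c (x + y - x * y)) (c x) -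
          B (c x) (c y) = -(B (c x) (c y) + 0 - -B (c (x + y - x * y)) (c x) +
            -B (c (x + y - x * y)) (c y + c (1 - x))) := by abel
      rw [← sub_eq_zero, h4, h3, neg_zero]

/-- `α3 = 0` -/
theorem PS_a3 (V : Env B c) (k2 : (2 : k) ≠ 0) (k3 : (3 : k) ≠ 0) {x y : K} (hA : Adm x y)
    (a1 a2 b1 b2 b3 : k) : PS B c x y a1 a2 0 b1 b2 b3 := by
  have R := V.rel hA
  by_cases hb3 : b3 = 0
  · rw [hb3]
    exact sym_zero R a1 a2 b1 b2
  by_contra hcon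
  have hall : ∀ t : k, t ≠ 0 → t + 1 ≠ 0 → 2 * t + 1 ≠ 0 →
      (2 * t + 1) * (b2 - t * b1 + (t + 1) * a2 - t * (t + 1) * a1) - t ^ 2 * b3 = 0 := by
    intro t h0 h1 h2
    by_contra hP
    exact hcon (PS_G V hA t h0 h1 h2 hP)
  have one_add : (1 : k) + 1 ≠ 0 := by
    rw [one_add_one_eq_two]
    exact k2
  have E1 := hall 1 one_ne_zero one_add (by
    intro h
    apply k3
    linear_combination h)
  have E2 := hall (-2) (neg_ne_zero.mpr k2) (by
    intro h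
    apply one_ne_zero (α := k)
    linear_combination -h) (by
    intro h
    apply k3
    linear_combination -h)
  by_cases k5 : (5 : k) = 0
  · -- characteristic five
    have h21 : a2 = b1 := by
      linear_combination -E1 - E2 + (2 * (a2 - b1) - b3) * k5
    have hb : b3 = 3 * b2 + 3 * b1 - a1 := by
      linear_combination -E1 + 6 * h21 - a1 * k5
    apply hcon
    by_cases hb1 : b1 = 0
    · have ha2 : a2 = 0 := h21.trans hb1
      subst hb1
      subst ha2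
      by_cases hb2 : b2 = 0
      · subst hb2
        exact PS_s4 V hA (sym_zero (V.rel hA.s4) _ _ _ _)
      · by_cases ha1 : a1 = 0
        · exact sym_par _ _ _ _ _ _ (by rw [ha1]; ring) (by ring) (Or.inr hb3)
        · refine PS_s3 V hA (sym_L1 (V.rel hA.s3) _ _ _ _ _ _ ?_ ?_ ?_)
          · intro h
            apply hb2
            linear_combination -h + hb + b2 * k5
          · rw [zero_add]
            exact neg_ne_zero.mpr hb3
          · intro h
            have h2 : a1 * b3 = 0 := by linear_combination h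
            exact (mul_ne_zero ha1 hb3) h2
    · have ha2 : a2 ≠ 0 := by
        rw [h21]
        exact hb1
      by_cases hb2 : b2 = 0
      · subst hb2
        refine PS_s2 V hA (sym_L2 (V.rel hA.s2) _ _ _ _ _ _ ?_ ?_ ?_)
        · intro h
          apply hb3
          linear_combination -h
        · exact hb3
        · intro h
          have h2 : b1 * b3 = 0 := by linear_combination -h
          exact (mul_ne_zero hb1 hb3) h2
      · refine sym_L2 R _ _ _ _ _ _ hb2 hb3 ?_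
        intro h
        have h2 : a2 * b3 = 0 := by linear_combination h
        exact (mul_ne_zero ha2 hb3) h2
  · -- other characteristics
    have t3 : (3 : k)⁻¹ ≠ 0 := inv_ne_zero k3
    have hi : (3 : k)⁻¹ * 3 = 1 := inv_mul_cancel₀ k3
    have E3 := hall (-(3 : k)⁻¹) (neg_ne_zero.mpr t3) (by
      intro h
      apply k2
      linear_combination 3 * h + hi) (by
      intro h
      apply one_ne_zero (α := k)
      linear_combination 3 * h + 2 * hi)
    have E4 := hall (-(2 * (3 : k)⁻¹)) (neg_ne_zero.mpr (mul_ne_zero k2 t3)) (by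
      intro h
      apply one_ne_zero (α := k)
      linear_combination 3 * h + 2 * hi) (by
      intro h
      apply one_ne_zero (α := k)
      linear_combination -3 * h - 4 * hi)
    have F3 : 9 * b2 + 3 * b1 + 6 * a2 + 2 * a1 - 3 * b3 = 0 := by
      have e : (3 : k) ^ 3 * ((2 * (-(3 : k)⁻¹) + 1) * (b2 - (-(3 : k)⁻¹) * b1 + ((-(3 : k)⁻¹) + 1) * a2 -
        (-(3 : k)⁻¹) * ((-(3 : k)⁻¹) + 1) * a1) - (-(3 : k)⁻¹) ^ 2 * b3) =
          9 * b2 + 3 * b1 + 6 * a2 + 2 * a1 - 3 * b3 := by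
        field_simp
        ring
      rw [← e, E3, mul_zero]
    have F4 : -9 * b2 - 6 * b1 - 3 * a2 - 2 * a1 - 12 * b3 = 0 := by
      have e : (3 : k) ^ 3 * ((2 * (-(2 * (3 : k)⁻¹)) + 1) * (b2 - (-(2 * (3 : k)⁻¹)) * b1 +
        ((-(2 * (3 : k)⁻¹)) + 1) * a2 -
        (-(2 * (3 : k)⁻¹)) * ((-(2 * (3 : k)⁻¹)) + 1) * a1) - (-(2 * (3 : k)⁻¹)) ^ 2 * b3) =
          -9 * b2 - 6 * b1 - 3 * a2 - 2 * a1 - 12 * b3 := by
        field_simp
        ring
      rw [← e, E4, mul_zero]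
    have h40 : (2 ^ 3 * 5) * b3 = 0 := by
      linear_combination E1 + E2 - 3 * F3 - 3 * F4
    rcases mul_eq_zero.mp h40 with h | h
    · exact (mul_ne_zero (pow_ne_zero 3 k2) k5) h
    · exact hb3 h

/-- every class is a symbol -/
theorem PS_main (V : Env B c) (k2 : (2 : k) ≠ 0) (k3 : (3 : k) ≠ 0) {x y : K} (hA : Adm x y)
    (a1 a2 a3 b1 b2 b3 : k) : PS B c x y a1 a2 a3 b1 b2 b3 := by
  have R := V.rel hA
  -- the four special cases
  have A1 : ∀ (x y : K), Adm x y → ∀ a2 a3 b1 b2 b3 : k, PS B c x y 0 a2 a3 b1 b2 b3 := by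
    intro x y hA a2 a3 b1 b2 b3
    exact PS_s6 V hA (PS_a3 V k2 k3 hA.s6 _ _ _ _ _)
  by_cases h1 : a1 = 0
  · rw [h1]
    exact A1 x y hA _ _ _ _ _
  by_cases h3 : a3 = 0
  · rw [h3]
    exact PS_a3 V k2 k3 hA _ _ _ _ _
  by_cases h2 : b2 = 0
  · rw [h2]
    exact PS_s1 V (A1 _ _ hA.s1 _ _ _ _ _)
  by_cases h4 : b3 = 0
  · rw [h4]
    exact PS_s1 V (PS_a3 V k2 k3 hA.s1 _ _ _ _ _)
  by_cases d1 : a1 * b3 - a3 * b1 = 0
  · by_cases d2 : a2 * b3 - a3 * b2 = 0
    · exact sym_par _ _ _ _ _ _ d1 d2 (Or.inl h3)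
    · exact sym_L2 R _ _ _ _ _ _ h2 h4 d2
  · exact sym_L1 R _ _ _ _ _ _ h1 h3 d1

end env



section conc

variable (K : Type) [Field K] (p : ℕ)

/-- The relations of `K₂(K)/p`. -/
def kRel : AddSubgroup (Additive Kˣ ⊗[ℤ] Additive Kˣ) :=
  AddSubgroup.closure
    ({x | ∃ y : Additive Kˣ ⊗[ℤ] Additive Kˣ, x = p • y} ∪
      {x | ∃ c d : Kˣ, (c : K) + (d : K) = 1 ∧ x = Additive.ofMul c ⊗ₜ[ℤ] Additive.ofMul d})

/-- `K₂(K)/p`. -/
def KTwo : Type := (Additive Kˣ ⊗[ℤ] Additive Kˣ) ⧸ kRel K p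

/-- The `p`-th powers. -/
def pPow : AddSubgroup (Additive Kˣ) := (nsmulAddMonoidHom (α := Additive Kˣ) p).range

/-- `K₁(K)/p`. -/
def KOne : Type := Additive Kˣ ⧸ pPow K p

instance instAKTwo : AddCommGroup (KTwo K p) := QuotientAddGroup.Quotient.addCommGroup _

instance instAKOne : AddCommGroup (KOne K p) := QuotientAddGroup.Quotient.addCommGroup _

/-- the projection -/
def two : Additive Kˣ ⊗[ℤ] Additive Kˣ →+ KTwo K p := QuotientAddGroup.mk' (kRel K p)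

/-- the projection -/
def one' : Additive Kˣ →+ KOne K p := QuotientAddGroup.mk' (pPow K p)

theorem two_surj (x : KTwo K p) : ∃ y, two K p y = x := QuotientAddGroup.mk'_surjective _ x

theorem one_surj (x : KOne K p) : ∃ y, one' K p y = x := QuotientAddGroup.mk'_surjective _ x

theorem two_eq_zero {x : Additive Kˣ ⊗[ℤ] Additive Kˣ} : two K p x = 0 ↔ x ∈ kRel K p :=
  QuotientAddGroup.eq_zero_iff x

theorem one_eq_zero {x : Additive Kˣ} : one' K p x = 0 ↔ x ∈ pPow K p :=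
  QuotientAddGroup.eq_zero_iff x

theorem p_smul_KTwo (x : KTwo K p) : p • x = 0 := by
  obtain ⟨y, rfl⟩ := two_surj K p x
  rw [← map_nsmul, two_eq_zero]
  exact AddSubgroup.subset_closure (Or.inl ⟨y, rfl⟩)

theorem p_smul_KOne (x : KOne K p) : p • x = 0 := by
  obtain ⟨y, rfl⟩ := one_surj K p x
  rw [← map_nsmul, one_eq_zero]
  exact ⟨y, rfl⟩

instance instKTwo : Module (ZMod p) (KTwo K p) := AddCommGroup.zmodModule (p_smul_KTwo K p)

instance instKOne : Module (ZMod p) (KOne K p) := AddCommGroup.zmodModule (p_smul_KOne K p)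

/-- the symbol -/
def symZ : Additive Kˣ →+ Additive Kˣ →+ KTwo K p :=
  AddMonoidHom.mk' (fun a => (two K p).comp
    (TensorProduct.mk ℤ (Additive Kˣ) (Additive Kˣ) a).toAddMonoidHom) (by
      intro a b
      ext c
      show two K p ((a + b) ⊗ₜ[ℤ] _) = two K p (a ⊗ₜ[ℤ] _) + two K p (b ⊗ₜ[ℤ] _)
      rw [TensorProduct.add_tmul, map_add])

theorem symZ_apply (a b : Additive Kˣ) : symZ K p a b = two K p (a ⊗ₜ[ℤ] b) := rfl

/-- the symbol on the first quotient -/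
def symA (a : Additive Kˣ) : KOne K p →+ KTwo K p :=
  QuotientAddGroup.lift _ (symZ K p a) (by
    rintro _ ⟨x, rfl⟩
    show symZ K p a (p • x) = 0
    rw [map_nsmul, p_smul_KTwo])

theorem symA_apply (a b : Additive Kˣ) : symA K p a (one' K p b) = two K p (a ⊗ₜ[ℤ] b) := rfl

/-- the symbol on both quotients -/
def symB : KOne K p →+ KOne K p →+ KTwo K p :=
  QuotientAddGroup.lift _ (AddMonoidHom.mk' (symA K p) (by
    intro a b
    refine AddMonoidHom.ext fun x => ?_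
    obtain ⟨c, rfl⟩ := one_surj K p x
    rw [AddMonoidHom.add_apply, symA_apply, symA_apply, symA_apply, TensorProduct.add_tmul,
      map_add])) (by
    rintro _ ⟨x, rfl⟩
    refine AddMonoidHom.ext fun z => ?_
    obtain ⟨c, rfl⟩ := one_surj K p z
    show symZ K p (p • x) c = 0
    rw [map_nsmul, AddMonoidHom.nsmul_apply, p_smul_KTwo])

/-- the bilinear symbol -/
def symL : KOne K p →ₗ[ZMod p] KOne K p →ₗ[ZMod p] KTwo K p :=
  LinearMap.mk₂ (ZMod p) (fun e f => symB K p e f)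
    (fun a b c => by rw [map_add, AddMonoidHom.add_apply])
    (fun c a b => by
      have := ZMod.map_smul ((symB K p).flip b) c a
      exact this)
    (fun a b c => by rw [map_add])
    (fun c a b => ZMod.map_smul (symB K p a) c b)

theorem symL_mk (a b : Additive Kˣ) :
    symL K p (one' K p a) (one' K p b) = two K p (a ⊗ₜ[ℤ] b) := rfl

open Classical in
/-- the class of an element of the field -/
noncomputable def cl (z : K) : KOne K p :=
  if h : z = 0 then 0 else one' K p (Additive.ofMul (Units.mk0 z h))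

theorem cl_unit (z : Kˣ) : cl K p (z : K) = one' K p (Additive.ofMul z) := by
  unfold cl
  rw [dif_neg z.ne_zero]
  congr 2
  exact Units.mk0_val z _


variable {K p}

theorem cl_mul {a b : K} (ha : a ≠ 0) (hb : b ≠ 0) : cl K p (a * b) = cl K p a + cl K p b := by
  have h1 := cl_unit K p (Units.mk0 a ha)
  have h2 := cl_unit K p (Units.mk0 b hb)
  have h3 := cl_unit K p (Units.mk0 a ha * Units.mk0 b hb)
  rw [Units.val_mul, Units.val_mk0, Units.val_mk0] at h3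
  rw [Units.val_mk0] at h1 h2
  rw [h1, h2, h3, ofMul_mul, map_add]

theorem cl_pow (z : Kˣ) : cl K p ((z ^ p : Kˣ) : K) = 0 := by
  rw [cl_unit, one_eq_zero]
  exact ⟨Additive.ofMul z, rfl⟩

theorem cl_one : cl K p (1 : K) = 0 := by
  have h := cl_mul (p := p) (one_ne_zero (α := K)) one_ne_zero
  rw [mul_one] at h
  exact left_eq_add.mp h

theorem cl_neg (hp : Odd p) (a : K) : cl K p (-a) = cl K p a := by
  by_cases ha : a = 0
  · rw [ha, neg_zero]
  have h1 : cl K p (-1 : K) = 0 := by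
    have := cl_pow (p := p) (-1 : Kˣ)
    rwa [hp.neg_one_pow, Units.val_neg, Units.val_one] at this
  have h2 : -a = (-1) * a := by ring
  rw [h2, cl_mul (neg_ne_zero.mpr one_ne_zero) ha, h1, zero_add]

theorem cl_inv {a : K} (ha : a ≠ 0) : cl K p a⁻¹ = -cl K p a := by
  have h := cl_mul (p := p) ha (inv_ne_zero ha)
  rw [mul_inv_cancel₀ ha, cl_one] at h
  exact (neg_eq_of_add_eq_zero_right h.symm).symm

theorem symL_st {a b : K} (ha : a ≠ 0) (hb : b ≠ 0) (h : a + b = 1) :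
    symL K p (cl K p a) (cl K p b) = 0 := by
  have h1 := cl_unit K p (Units.mk0 a ha)
  have h2 := cl_unit K p (Units.mk0 b hb)
  rw [Units.val_mk0] at h1 h2
  rw [h1, h2, symL_mk, two_eq_zero]
  exact AddSubgroup.subset_closure (Or.inr ⟨Units.mk0 a ha, Units.mk0 b hb, h, rfl⟩)

theorem symL_self (hp : Odd p) (a : K) : symL K p (cl K p a) (cl K p a) = 0 := by
  by_cases ha : a = 0
  · have : cl K p (0 : K) = 0 := dif_pos rfl
    rw [ha, this, map_zero]
  by_cases h1 : a = 1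
  · rw [h1, cl_one, map_zero]
  have hu : 1 - a ≠ 0 := sub_ne_zero.mpr (Ne.symm h1)
  have hu' : 1 - a⁻¹ ≠ 0 := sub_ne_zero.mpr fun h => h1 (inv_eq_one.mp h.symm)
  have h2 : 1 - a = -a * (1 - a⁻¹) := by
    field_simp
    ring
  have h3 := symL_st (p := p) ha hu (by ring)
  have h4 := symL_st (p := p) (inv_ne_zero ha) hu' (by ring)
  rw [h2, cl_mul (neg_ne_zero.mpr ha) hu', cl_neg hp, map_add] at h3
  rw [cl_inv ha, map_neg, LinearMap.neg_apply, neg_eq_zero] at h4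
  rwa [h4, add_zero] at h3

theorem cl_surj (e : KOne K p) : ∃ z : Kˣ, e = cl K p (z : K) := by
  obtain ⟨y, rfl⟩ := one_surj K p e
  exact ⟨y.toMul, (cl_unit K p y.toMul).symm⟩

theorem env [Fact p.Prime] (hp : Odd p) : Env (symL K p) (cl K p) where
  alt e := by
    obtain ⟨z, rfl⟩ := cl_surj e
    exact symL_self hp _
  mul a b ha hb := cl_mul ha hb
  neg a := cl_neg hp a
  st a b ha hb h := symL_st ha hb h

/-- The subgroup of `Kˣ` generated by the elements of `S` and the `p`-th powers. -/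
def gp (p : ℕ) (S : Set K) : Subgroup Kˣ :=
  Subgroup.closure {z : Kˣ | (z : K) ∈ S ∨ ∃ w : Kˣ, z = w ^ p}

theorem cl_mem [Fact p.Prime] {x y : K} {z : Kˣ}
    (hz : z ∈ gp p {x, 1 - x, y, 1 - y, x - y}) :
    ∃ e0 e1 e2 e3 e4 : ZMod p, cl K p (z : K) = e0 • cl K p x + e1 • cl K p (1 - x) +
      e2 • cl K p y + e3 • cl K p (1 - y) + e4 • cl K p (x - y) := by
  induction hz using Subgroup.closure_induction with
  | mem z hz =>
    rcases hz with hz | ⟨w, rfl⟩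
    · simp only [Set.mem_insert_iff, Set.mem_singleton_iff] at hz
      rcases hz with h | h | h | h | h <;> rw [h]
      · exact ⟨1, 0, 0, 0, 0, by module⟩
      · exact ⟨0, 1, 0, 0, 0, by module⟩
      · exact ⟨0, 0, 1, 0, 0, by module⟩
      · exact ⟨0, 0, 0, 1, 0, by module⟩
      · exact ⟨0, 0, 0, 0, 1, by module⟩
    · exact ⟨0, 0, 0, 0, 0, by rw [cl_pow]; module⟩
  | one => exact ⟨0, 0, 0, 0, 0, by rw [Units.val_one, cl_one]; module⟩
  | mul z w _ _ hz hw =>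
    obtain ⟨e0, e1, e2, e3, e4, he⟩ := hz
    obtain ⟨f0, f1, f2, f3, f4, hf⟩ := hw
    refine ⟨e0 + f0, e1 + f1, e2 + f2, e3 + f3, e4 + f4, ?_⟩
    rw [Units.val_mul, cl_mul z.ne_zero w.ne_zero, he, hf]
    module
  | inv z _ hz =>
    obtain ⟨e0, e1, e2, e3, e4, he⟩ := hz
    refine ⟨-e0, -e1, -e2, -e3, -e4, ?_⟩
    rw [Units.val_inv_eq_inv_val, cl_inv z.ne_zero, he]
    module

/-- the classes in the subgroup have the form `W` -/
theorem class_mem [Fact p.Prime] (hp : Odd p) {x y : K} (hA : Adm x y)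
    {t : Additive Kˣ ⊗[ℤ] Additive Kˣ}
    (ht : t ∈ AddSubgroup.closure {s | ∃ a ∈ gp p {x, 1 - x, y, 1 - y, x - y},
      ∃ b ∈ gp p {x, 1 - x, y, 1 - y, x - y}, s = Additive.ofMul a ⊗ₜ[ℤ] Additive.ofMul b}) :
    ∃ a1 a2 a3 b1 b2 b3 : ZMod p, two K p t =
      W (symL K p) (cl K p x) (cl K p (1 - x)) (cl K p y) (cl K p (1 - y)) (cl K p (x - y))
        a1 a2 a3 b1 b2 b3 := by
  have R := (env (K := K) hp).rel hA
  induction ht using AddSubgroup.closure_induction with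
  | mem t ht =>
    obtain ⟨a, ha, b, hb, rfl⟩ := ht
    obtain ⟨e0, e1, e2, e3, e4, he⟩ := cl_mem ha
    obtain ⟨f0, f1, f2, f3, f4, hf⟩ := cl_mem hb
    rw [← symL_mk, ← cl_unit, ← cl_unit, he, hf, B_eq_W R]
    exact ⟨_, _, _, _, _, _, rfl⟩
  | zero => exact ⟨0, 0, 0, 0, 0, 0, by rw [map_zero]; simp only [W]; module⟩
  | add s t _ _ hs ht =>
    obtain ⟨a1, a2, a3, a4, a5, a6, ha⟩ := hs
    obtain ⟨b1, b2, b3, b4, b5, b6, hb⟩ := ht
    refine ⟨a1 + b1, a2 + b2, a3 + b3, a4 + b4, a5 + b5, a6 + b6, ?_⟩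
    rw [map_add, ha, hb]
    simp only [W]
    module
  | neg t _ ht =>
    obtain ⟨a1, a2, a3, a4, a5, a6, ha⟩ := ht
    refine ⟨-a1, -a2, -a3, -a4, -a5, -a6, ?_⟩
    rw [map_neg, ha]
    simp only [W]
    module

theorem main (hp : p.Prime) (h5 : 5 ≤ p) {x y : K} (hx0 : x ≠ 0) (hx1 : x ≠ 1) (hy0 : y ≠ 0)
    (hy1 : y ≠ 1) (hxy : x ≠ y) (t : Additive Kˣ ⊗[ℤ] Additive Kˣ)
    (ht : t ∈ AddSubgroup.closure {s | ∃ a ∈ gp p {x, 1 - x, y, 1 - y, x - y},
      ∃ b ∈ gp p {x, 1 - x, y, 1 - y, x - y}, s = Additive.ofMul a ⊗ₜ[ℤ] Additive.ofMul b}) :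
    ∃ a b : Kˣ, t - Additive.ofMul a ⊗ₜ[ℤ] Additive.ofMul b ∈ kRel K p := by
  have : Fact p.Prime := ⟨hp⟩
  have hodd : Odd p := hp.odd_of_ne_two (by omega)
  have hA : Adm x y := ⟨hx0, hx1, hy0, hy1, hxy⟩
  obtain ⟨a1, a2, a3, b1, b2, b3, h⟩ := class_mem hodd hA ht
  have k2 : (2 : ZMod p) ≠ 0 := by
    intro h
    have h1 : ((2 : ℕ) : ZMod p) = 0 := by exact_mod_cast h
    rw [ZMod.natCast_eq_zero_iff] at h1
    have := Nat.le_of_dvd (by norm_num) h1
    omega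
  have k3 : (3 : ZMod p) ≠ 0 := by
    intro h
    have h1 : ((3 : ℕ) : ZMod p) = 0 := by exact_mod_cast h
    rw [ZMod.natCast_eq_zero_iff] at h1
    have := Nat.le_of_dvd (by norm_num) h1
    omega
  obtain ⟨e, f, hef⟩ := PS_main (env (K := K) hodd) k2 k3 hA a1 a2 a3 b1 b2 b3
  obtain ⟨a, rfl⟩ := cl_surj e
  obtain ⟨b, rfl⟩ := cl_surj f
  refine ⟨a, b, ?_⟩
  rw [cl_unit, cl_unit, symL_mk, ← h] at hef
  rw [← two_eq_zero, map_sub, ← hef, sub_self]

end conc

end MP5bbd
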